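import Pool.Agent.Helper19.BW.Rep

/-!
# Vectors in the closed span of vectors with continuous spectrum
-/

set_option autoImplicit false
set_option linter.unusedSectionVars false
open MeasureTheory Filter Topology ProbabilityTheory
open scoped RealInnerProductSpace

namespace Pool.Agent.Helper19.BW

noncomputable section

variable {H : Type*} [NormedAddCommGroup H] [InnerProductSpace ℝ H] [CompleteSpace H]
  {U : ℂ → H →ₗᵢ[ℝ] H}

/-- the action twisted by a character -/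
def tw (U : ℂ → H →ₗᵢ[ℝ] H) (θ y : ℂ) : WithLp 2 (H × H) →ₗᵢ[ℝ] WithLp 2 (H × H) where
  toFun p := WithLp.toLp 2 (Real.cos ⟪θ, y⟫ • U y p.fst - Real.sin ⟪θ, y⟫ • U y p.snd,
    Real.sin ⟪θ, y⟫ • U y p.fst + Real.cos ⟪θ, y⟫ • U y p.snd)
  map_add' p q := by
    refine WithLp.ofLp_injective 2 (Prod.ext ?_ ?_)
    · show Real.cos ⟪θ, y⟫ • U y (p.fst + q.fst) - Real.sin ⟪θ, y⟫ • U y (p.snd + q.snd) =
        (Real.cos ⟪θ, y⟫ • U y p.fst - Real.sin ⟪θ, y⟫ • U y p.snd) +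
        (Real.cos ⟪θ, y⟫ • U y q.fst - Real.sin ⟪θ, y⟫ • U y q.snd)
      rw [map_add, map_add, smul_add, smul_add]
      abel
    · show Real.sin ⟪θ, y⟫ • U y (p.fst + q.fst) + Real.cos ⟪θ, y⟫ • U y (p.snd + q.snd) =
        (Real.sin ⟪θ, y⟫ • U y p.fst + Real.cos ⟪θ, y⟫ • U y p.snd) +
        (Real.sin ⟪θ, y⟫ • U y q.fst + Real.cos ⟪θ, y⟫ • U y q.snd)
      rw [map_add, map_add, smul_add, smul_add]
      abel
  map_smul' c p := by
    refine WithLp.ofLp_injective 2 (Prod.ext ?_ ?_)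
    · show Real.cos ⟪θ, y⟫ • U y (c • p.fst) - Real.sin ⟪θ, y⟫ • U y (c • p.snd) =
        c • (Real.cos ⟪θ, y⟫ • U y p.fst - Real.sin ⟪θ, y⟫ • U y p.snd)
      rw [map_smul, map_smul, smul_sub, smul_comm c, smul_comm c]
    · show Real.sin ⟪θ, y⟫ • U y (c • p.fst) + Real.cos ⟪θ, y⟫ • U y (c • p.snd) =
        c • (Real.sin ⟪θ, y⟫ • U y p.fst + Real.cos ⟪θ, y⟫ • U y p.snd)
      rw [map_smul, map_smul, smul_add, smul_comm c, smul_comm c]
  norm_map' p := by
    have h : ∀ x : WithLp 2 (H × H), ‖x‖ = √(‖x.fst‖ ^ 2 + ‖x.snd‖ ^ 2) := fun x =>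
      WithLp.prod_norm_eq_of_L2 x
    rw [h, h]
    congr 1
    show ‖Real.cos ⟪θ, y⟫ • U y p.fst - Real.sin ⟪θ, y⟫ • U y p.snd‖ ^ 2 +
      ‖Real.sin ⟪θ, y⟫ • U y p.fst + Real.cos ⟪θ, y⟫ • U y p.snd‖ ^ 2 = _
    rw [norm_sub_sq_real, norm_add_sq_real]
    simp only [norm_smul, real_inner_smul_left, real_inner_smul_right, (U y).norm_map,
      Real.norm_eq_abs, mul_pow, sq_abs]
    have := Real.cos_sq_add_sin_sq ⟪θ, y⟫
    linear_combination (‖p.fst‖ ^ 2 + ‖p.snd‖ ^ 2) * this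

theorem tw_rep (hU : IsRep U) (θ : ℂ) : IsRep (tw U θ) where
  zero p := by
    refine WithLp.ofLp_injective 2 (Prod.ext ?_ ?_)
    · show Real.cos ⟪θ, (0 : ℂ)⟫ • U 0 p.fst - Real.sin ⟪θ, (0 : ℂ)⟫ • U 0 p.snd = p.fst
      rw [inner_zero_right, Real.cos_zero, Real.sin_zero, hU.zero]
      simp
    · show Real.sin ⟪θ, (0 : ℂ)⟫ • U 0 p.fst + Real.cos ⟪θ, (0 : ℂ)⟫ • U 0 p.snd = p.snd
      rw [inner_zero_right, Real.cos_zero, Real.sin_zero, hU.zero, hU.zero]
      simp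
  add x y p := by
    refine WithLp.ofLp_injective 2 (Prod.ext ?_ ?_)
    · show Real.cos ⟪θ, x + y⟫ • U (x + y) p.fst - Real.sin ⟪θ, x + y⟫ • U (x + y) p.snd =
        Real.cos ⟪θ, x⟫ • U x (Real.cos ⟪θ, y⟫ • U y p.fst - Real.sin ⟪θ, y⟫ • U y p.snd) -
        Real.sin ⟪θ, x⟫ • U x (Real.sin ⟪θ, y⟫ • U y p.fst + Real.cos ⟪θ, y⟫ • U y p.snd)
      rw [inner_add_right, Real.cos_add, Real.sin_add, hU.add, hU.add, map_sub, map_add, map_smul,
        map_smul, map_smul, map_smul]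
      module
    · show Real.sin ⟪θ, x + y⟫ • U (x + y) p.fst + Real.cos ⟪θ, x + y⟫ • U (x + y) p.snd =
        Real.sin ⟪θ, x⟫ • U x (Real.cos ⟪θ, y⟫ • U y p.fst - Real.sin ⟪θ, y⟫ • U y p.snd) +
        Real.cos ⟪θ, x⟫ • U x (Real.sin ⟪θ, y⟫ • U y p.fst + Real.cos ⟪θ, y⟫ • U y p.snd)
      rw [inner_add_right, Real.cos_add, Real.sin_add, hU.add, hU.add, map_sub, map_add, map_smul,
        map_smul, map_smul, map_smul]
      module

/-- the twisted spectral measure -/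
def twm (τ : Measure ℂ) (θ : ℂ) : Measure ℂ :=
  ENNReal.ofReal (1 / 2) • (τ.map (fun ξ => ξ + θ) + τ.map (fun ξ => ξ + -θ))

instance (τ : Measure ℂ) [IsFiniteMeasure τ] (θ : ℂ) : IsFiniteMeasure (twm τ θ) := by
  unfold twm
  exact Measure.smul_finite _ ENNReal.ofReal_ne_top

theorem twm_zero (τ : Measure ℂ) (θ : ℂ) :
    twm τ θ {0} = ENNReal.ofReal (1 / 2) * (τ {-θ} + τ {θ}) := by
  unfold twm
  rw [Measure.smul_apply, Measure.add_apply,
    Measure.map_apply (by fun_prop) (measurableSet_singleton _),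
    Measure.map_apply (by fun_prop) (measurableSet_singleton _), smul_eq_mul]
  congr 2
  · congr 1
    ext ξ
    simp [eq_neg_iff_add_eq_zero]
  · congr 1
    ext ξ
    simp [← sub_eq_add_neg, sub_eq_zero]

theorem tw_spec {v : H} {τ : Measure ℂ} [IsFiniteMeasure τ] (hv : IsSp U v τ) (θ : ℂ) :
    IsSp (tw U θ) (WithLp.toLp 2 (v, 0)) (twm τ θ) := by
  intro x
  have h1 : ⟪tw U θ x (WithLp.toLp 2 (v, 0)), WithLp.toLp 2 (v, (0 : H))⟫ =
      Real.cos ⟪θ, x⟫ * ⟪U x v, v⟫ := by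
    rw [WithLp.prod_inner_apply]
    show ⟪Real.cos ⟪θ, x⟫ • U x v - Real.sin ⟪θ, x⟫ • U x 0, v⟫ +
      ⟪Real.sin ⟪θ, x⟫ • U x v + Real.cos ⟪θ, x⟫ • U x 0, (0 : H)⟫ = _
    rw [map_zero, smul_zero, sub_zero, inner_zero_right, add_zero, real_inner_smul_left]
  rw [h1]
  push_cast
  rw [hv x, charFun_apply (μ := twm τ θ)]
  unfold twm
  rw [integral_smul_measure, integral_add_measure, ← charFun_apply, ← charFun_apply,
    charFun_map_add_const, charFun_map_add_const, inner_neg_left]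
  · rw [ENNReal.toReal_ofReal (by norm_num), Complex.real_smul, Complex.cos]
    push_cast
    ring
  · refine (integrable_const (1 : ℝ)).mono' (by fun_prop) (Eventually.of_forall fun α => ?_)
    rw [Complex.norm_exp_ofReal_mul_I]
  · refine (integrable_const (1 : ℝ)).mono' (by fun_prop) (Eventually.of_forall fun α => ?_)
    rw [Complex.norm_exp_ofReal_mul_I]

theorem sym_pow_lim (τ : Measure ℂ) [IsFiniteMeasure τ] (h0 : τ {0} = 0) :
    Tendsto (fun j : ℕ => ∫ ξ, sym ξ ^ (j + j) ∂τ) atTop (𝓝 0) := by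
  have h4 : (0 : ℝ) = ∫ _, (0 : ℝ) ∂τ := by simp
  rw [h4]
  refine tendsto_integral_of_dominated_convergence (fun _ => 1) (fun n => ?_)
    (integrable_const _) (fun n => ?_) ?_
  · exact (sym_cont.pow _).aestronglyMeasurable
  · refine Eventually.of_forall fun ξ => ?_
    rw [Real.norm_eq_abs, abs_of_nonneg (pow_nonneg (sym_pos ξ).le _)]
    exact pow_le_one₀ (sym_pos ξ).le (sym_le ξ)
  · have h5 : ∀ᵐ ξ ∂τ, ξ ≠ 0 := by
      rw [ae_iff]
      simpa using h0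
    filter_upwards [h5] with ξ hξ
    have h6 : sym ξ < 1 := lt_of_le_of_ne (sym_le ξ) fun h => hξ (sym_eq_one.1 h)
    have h7 := tendsto_pow_atTop_nhds_zero_of_lt_one (sym_pos ξ).le h6
    exact h7.comp (tendsto_atTop_mono (fun j => Nat.le_add_left j j) tendsto_id)

theorem Lj_norm_le {H : Type*} [NormedAddCommGroup H] [InnerProductSpace ℝ H] [CompleteSpace H]
    (U : ℂ → H →ₗᵢ[ℝ] H) (j : ℕ) (v : H) : ‖Lj U j v‖ ≤ ‖v‖ := by
  unfold Lj
  refine (norm_integral_le_integral_norm _).trans (le_of_eq ?_)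
  simp

/-- **closed spans of vectors without the frequency `θ`** -/
theorem no_atom (hU : IsRep U) {v : H} {ρ : Measure ℂ} [IsFiniteMeasure ρ] (hv : IsSp U v ρ)
    (θ : ℂ) (W : Set H)
    (hW : ∀ w ∈ W, ∃ τ : Measure ℂ, IsFiniteMeasure τ ∧ IsSp U w τ ∧ τ {θ} = 0 ∧ τ {-θ} = 0)
    (hcl : v ∈ (Submodule.span ℝ W).topologicalClosure) : ρ {θ} = 0 := by
  set v' : WithLp 2 (H × H) := WithLp.toLp 2 (v, 0) with hv'
  have hU' := tw_rep hU θ
  have hsv := tw_spec hv θ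
  have hlin : ∀ u ∈ Submodule.span ℝ W,
      Tendsto (fun j => ⟪Lj (tw U θ) j v', WithLp.toLp 2 (u, (0 : H))⟫) atTop (𝓝 0) := by
    intro u hu
    induction hu using Submodule.span_induction with
    | mem w hw =>
      obtain ⟨τ, t1, t2, t3, t4⟩ := hW w hw
      have hsw := tw_spec t2 θ
      have h0 : (twm τ θ) {0} = 0 := by rw [twm_zero, t3, t4]; simp
      have h1 := (sym_pow_lim (twm τ θ) h0).sqrt.const_mul ‖v'‖
      rw [Real.sqrt_zero, mul_zero] at h1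
      refine squeeze_zero_norm (fun j => ?_) h1
      rw [hU'.Lj_symm hsv hsw, Real.norm_eq_abs]
      refine (abs_real_inner_le_norm _ _).trans ?_
      rw [← hU'.Lj_inner hsw j j, real_inner_self_eq_norm_sq, Real.sqrt_sq (norm_nonneg _)]
    | zero =>
      have : (WithLp.toLp 2 ((0 : H), (0 : H)) : WithLp 2 (H × H)) = 0 := rfl
      simp only [this, inner_zero_right]
      exact tendsto_const_nhds
    | add x y _ _ hx hy =>
      have : ∀ j, ⟪Lj (tw U θ) j v', WithLp.toLp 2 (x + y, (0 : H))⟫ =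
          ⟪Lj (tw U θ) j v', WithLp.toLp 2 (x, (0 : H))⟫ +
          ⟪Lj (tw U θ) j v', WithLp.toLp 2 (y, (0 : H))⟫ := by
        intro j
        rw [← inner_add_right, ← WithLp.toLp_add]
        simp
      simp_rw [this]
      simpa using hx.add hy
    | smul a x _ hx =>
      have : ∀ j, ⟪Lj (tw U θ) j v', WithLp.toLp 2 (a • x, (0 : H))⟫ =
          a * ⟪Lj (tw U θ) j v', WithLp.toLp 2 (x, (0 : H))⟫ := by
        intro j
        rw [← real_inner_smul_right, ← WithLp.toLp_smul]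
        simp
      simp_rw [this]
      simpa using hx.const_mul a
  have hlow : ∀ j, (twm ρ θ).real {0} ≤ ⟪Lj (tw U θ) j v', v'⟫ := by
    intro j
    have h1 := hU'.Lj_inner hsv j 0
    rw [hU'.Lj_zero, add_zero] at h1
    rw [h1]
    have h2 : (twm ρ θ).real {0} = ∫ ξ, ({0} : Set ℂ).indicator (fun _ => (1 : ℝ)) ξ ∂(twm ρ θ) := by
      rw [integral_indicator_const _ (measurableSet_singleton _)]
      simp
    rw [h2]
    refine integral_mono ((integrable_const _).indicator (measurableSet_singleton _))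
      (sym_pow_int _ _) fun ξ => ?_
    by_cases h : ξ = 0
    · subst h
      have : sym 0 = 1 := sym_eq_one.2 rfl
      simp [this]
    · rw [Set.indicator_of_notMem (by simpa using h)]
      exact pow_nonneg (sym_pos ξ).le _
  have hle : ∀ ε : ℝ, 0 < ε → (twm ρ θ).real {0} ≤ ‖v'‖ * ε := by
    intro ε hε
    obtain ⟨u, hu, huv⟩ := Metric.mem_closure_iff.1 hcl ε hε
    have h1 : Tendsto (fun j => ‖v'‖ * ε + ⟪Lj (tw U θ) j v', WithLp.toLp 2 (u, (0 : H))⟫) atTop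
        (𝓝 (‖v'‖ * ε + 0)) := (hlin u hu).const_add _
    rw [add_zero] at h1
    refine ge_of_tendsto' h1 fun j => (hlow j).trans ?_
    have h2 : v' = WithLp.toLp 2 (v - u, (0 : H)) + WithLp.toLp 2 (u, (0 : H)) := by
      rw [← WithLp.toLp_add, hv']
      simp
    have h3 : ⟪Lj (tw U θ) j v', v'⟫ = ⟪Lj (tw U θ) j v', WithLp.toLp 2 (v - u, (0 : H))⟫ +
        ⟪Lj (tw U θ) j v', WithLp.toLp 2 (u, (0 : H))⟫ := by
      rw [← inner_add_right, ← h2]
    rw [h3]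
    gcongr
    refine (real_inner_le_norm _ _).trans ?_
    have h4 : ‖(WithLp.toLp 2 (v - u, (0 : H)) : WithLp 2 (H × H))‖ ≤ ε := by
      rw [WithLp.prod_norm_eq_of_L2]
      show √(‖v - u‖ ^ 2 + ‖(0 : H)‖ ^ 2) ≤ ε
      rw [dist_eq_norm] at huv
      rw [norm_zero, zero_pow two_ne_zero, add_zero, Real.sqrt_sq (norm_nonneg _)]
      exact huv.le
    gcongr
    exact Lj_norm_le _ _ _
  have h5 : (twm ρ θ).real {0} ≤ 0 := by
    have h6 : Tendsto (fun ε : ℝ => ‖v'‖ * ε) (𝓝[>] 0) (𝓝 (‖v'‖ * 0)) :=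
      (Continuous.tendsto (by fun_prop) 0).mono_left nhdsWithin_le_nhds
    rw [mul_zero] at h6
    exact ge_of_tendsto h6 (eventually_mem_nhdsWithin.mono fun ε hε => hle ε hε)
  have h7 : (twm ρ θ) {0} = 0 := by
    rw [← measureReal_eq_zero_iff]
    exact le_antisymm h5 measureReal_nonneg
  rw [twm_zero, mul_eq_zero] at h7
  rcases h7 with h | h
  · exact absurd h (by norm_num)
  · exact (add_eq_zero.1 h).2

end

end Pool.Agent.Helper19.BW
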