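import Pool.Agent.Helper19.BW.Split

/-!
# A central limit estimate
-/

set_option autoImplicit false
set_option linter.unusedSectionVars false
open MeasureTheory Filter Topology ProbabilityTheory

namespace Pool.Agent.Helper19.BW

noncomputable section

theorem prod_diff {ι : Type*} (S : Finset ι) (a b : ι → ℂ) (ha : ∀ i, ‖a i‖ ≤ 1)
    (hb : ∀ i, ‖b i‖ ≤ 1) : ‖∏ i ∈ S, a i - ∏ i ∈ S, b i‖ ≤ ∑ i ∈ S, ‖a i - b i‖ := by
  classical
  induction S using Finset.induction_on with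
  | empty => simp
  | insert j S hj ih =>
    rw [Finset.prod_insert hj, Finset.prod_insert hj, Finset.sum_insert hj]
    have e : a j * ∏ i ∈ S, a i - b j * ∏ i ∈ S, b i =
        (a j - b j) * ∏ i ∈ S, a i + b j * (∏ i ∈ S, a i - ∏ i ∈ S, b i) := by ring
    rw [e]
    have h1 : ‖∏ i ∈ S, a i‖ ≤ 1 := by
      rw [norm_prod]
      exact Finset.prod_le_one (fun i _ => norm_nonneg _) fun i _ => ha i
    refine (norm_add_le _ _).trans ?_
    rw [norm_mul, norm_mul]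
    have h2 : ‖a j - b j‖ * ‖∏ i ∈ S, a i‖ ≤ ‖a j - b j‖ * 1 := by gcongr
    have h3 : ‖b j‖ * ‖∏ i ∈ S, a i - ∏ i ∈ S, b i‖ ≤ 1 * ∑ i ∈ S, ‖a i - b i‖ := by
      gcongr
      exact hb j
    linarith

theorem exp_two (x : ℝ) (hx : 0 ≤ x) : |Real.exp (-x) - (1 - x)| ≤ x ^ 2 := by
  have h1 : 1 - x ≤ Real.exp (-x) := by linarith [Real.add_one_le_exp (-x)]
  have h2 : Real.exp (-x) ≤ 1 - x + x ^ 2 := by
    rw [Real.exp_neg]
    have h3 : 1 + x ≤ Real.exp x := by linarith [Real.add_one_le_exp x]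
    have h4 : (0 : ℝ) < 1 + x := by linarith
    calc (Real.exp x)⁻¹ ≤ (1 + x)⁻¹ := by gcongr
      _ ≤ 1 - x + x ^ 2 := by
        rw [inv_le_iff_one_le_mul₀ h4]
        nlinarith [pow_nonneg hx 3]
  rw [abs_le]
  constructor <;> linarith

theorem exp_three (x : ℝ) :
    ‖Complex.exp (x * Complex.I) - (1 + x * Complex.I - x ^ 2 / 2)‖ ≤ 4 * |x| ^ 3 := by
  rcases le_total |x| 1 with h | h
  · have h1 : ‖(x : ℂ) * Complex.I‖ ≤ 1 := by
      rw [norm_mul, Complex.norm_I, mul_one, Complex.norm_real]; exact h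
    have h2 := Complex.exp_bound h1 (n := 3) (by norm_num)
    have e1 : ∑ m ∈ Finset.range 3, ((x : ℂ) * Complex.I) ^ m / (m.factorial : ℂ) =
        1 + x * Complex.I - x ^ 2 / 2 := by
      simp only [Finset.sum_range_succ, Finset.sum_range_zero, Nat.factorial]
      push_cast
      rw [mul_pow _ _ 2, Complex.I_sq]
      ring
    rw [e1] at h2
    refine h2.trans ?_
    have h3 : ‖(x : ℂ) * Complex.I‖ = |x| := by
      rw [norm_mul, Complex.norm_I, mul_one, Complex.norm_real, Real.norm_eq_abs]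
    rw [h3]
    have h4 : (0 : ℝ) ≤ |x| ^ 3 := by positivity
    norm_num [Nat.factorial]
    nlinarith
  · have h1 : ‖Complex.exp (x * Complex.I)‖ = 1 := Complex.norm_exp_ofReal_mul_I x
    have h2 : ‖(1 + x * Complex.I - x ^ 2 / 2 : ℂ)‖ ≤ 1 + |x| + |x| ^ 2 / 2 := by
      refine (norm_sub_le _ _).trans ?_
      have h3 : ‖(1 + x * Complex.I : ℂ)‖ ≤ 1 + |x| := by
        refine (norm_add_le _ _).trans ?_
        rw [norm_mul, Complex.norm_I, mul_one, Complex.norm_real, Real.norm_eq_abs, norm_one]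
      have h4 : ‖((x : ℂ) ^ 2 / 2)‖ = |x| ^ 2 / 2 := by
        rw [norm_div, norm_pow, Complex.norm_real, Real.norm_eq_abs]; norm_num
      linarith
    refine (norm_sub_le _ _).trans ?_
    rw [h1]
    nlinarith [mul_nonneg (abs_nonneg x) (sub_nonneg.2 h), pow_nonneg (abs_nonneg x) 2,
      mul_nonneg (pow_nonneg (abs_nonneg x) 2) (sub_nonneg.2 h)]

section two

variable {X : Type*} [mX : MeasurableSpace X] {P : Measure X} [IsProbabilityMeasure P]

theorem pw_int {A : X → ℝ} (hA : MemLp A 4 P) (k : ℕ) (hk : k ≤ 4) :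
    Integrable (fun ω => A ω ^ k) P := by
  have h1 : Integrable (fun ω => ‖A ω‖ ^ 4) P := hA.integrable_norm_pow (by norm_num)
  refine (h1.add (integrable_const 1)).mono' (hA.aestronglyMeasurable.pow k)
    (Eventually.of_forall fun ω => ?_)
  show ‖A ω ^ k‖ ≤ ‖A ω‖ ^ 4 + 1
  rw [norm_pow]
  set a := ‖A ω‖
  have ha : 0 ≤ a := norm_nonneg _
  rcases le_total a 1 with h | h
  · have : a ^ k ≤ 1 := pow_le_one₀ ha h
    have : 0 ≤ a ^ 4 := by positivity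
    linarith
  · have := pow_le_pow_right₀ h hk
    linarith

/-- moments of the sum of two independent centred variables -/
theorem two_mom {A B : X → ℝ} (hA : MemLp A 4 P) (hB : MemLp B 4 P) (hi : IndepFun A B P)
    (hA0 : ∫ ω, A ω ∂P = 0) (hB0 : ∫ ω, B ω ∂P = 0) :
    ∫ ω, (A ω + B ω) ^ 2 ∂P = ∫ ω, A ω ^ 2 ∂P + ∫ ω, B ω ^ 2 ∂P ∧
    ∫ ω, (A ω + B ω) ^ 4 ∂P = ∫ ω, A ω ^ 4 ∂P + ∫ ω, B ω ^ 4 ∂P +
      6 * (∫ ω, A ω ^ 2 ∂P) * ∫ ω, B ω ^ 2 ∂P := by
  have mul : ∀ k l : ℕ, k ≤ 4 → l ≤ 4 → Integrable (fun ω => A ω ^ k * B ω ^ l) P ∧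
      ∫ ω, A ω ^ k * B ω ^ l ∂P = (∫ ω, A ω ^ k ∂P) * ∫ ω, B ω ^ l ∂P := by
    intro k l hk hl
    have hkl : IndepFun (fun ω => A ω ^ k) (fun ω => B ω ^ l) P :=
      hi.comp (φ := fun x => x ^ k) (ψ := fun x => x ^ l) (by fun_prop) (by fun_prop)
    exact ⟨hkl.integrable_mul (pw_int hA k hk) (pw_int hB l hl),
      hkl.integral_fun_mul_eq_mul_integral (hA.aestronglyMeasurable.pow k)
        (hB.aestronglyMeasurable.pow l)⟩
  constructor
  · have e : ∀ ω, (A ω + B ω) ^ 2 = A ω ^ 2 + 2 * (A ω ^ 1 * B ω ^ 1) + B ω ^ 2 := by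
      intro ω; ring
    simp_rw [e]
    rw [integral_add (f := fun ω => A ω ^ 2 + 2 * (A ω ^ 1 * B ω ^ 1)) (g := fun ω => B ω ^ 2)
      ((pw_int hA 2 (by norm_num)).add ((mul 1 1 (by norm_num) (by norm_num)).1.const_mul 2))
      (pw_int hB 2 (by norm_num)),
      integral_add (f := fun ω => A ω ^ 2) (g := fun ω => 2 * (A ω ^ 1 * B ω ^ 1))
      (pw_int hA 2 (by norm_num)) ((mul 1 1 (by norm_num) (by norm_num)).1.const_mul 2),
      integral_const_mul, (mul 1 1 (by norm_num) (by norm_num)).2]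
    simp only [pow_one, hA0, zero_mul, mul_zero, add_zero]
  · have e : ∀ ω, (A ω + B ω) ^ 4 = (A ω ^ 4 + 4 * (A ω ^ 3 * B ω ^ 1)) +
        (6 * (A ω ^ 2 * B ω ^ 2) + (4 * (A ω ^ 1 * B ω ^ 3) + B ω ^ 4)) := by
      intro ω; ring
    simp_rw [e]
    have i1 := pw_int hA 4 le_rfl
    have i2 := (mul 3 1 (by norm_num) (by norm_num)).1.const_mul 4
    have i3 := (mul 2 2 (by norm_num) (by norm_num)).1.const_mul 6
    have i4 := (mul 1 3 (by norm_num) (by norm_num)).1.const_mul 4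
    have i5 := pw_int hB 4 le_rfl
    rw [integral_add (f := fun ω => A ω ^ 4 + 4 * (A ω ^ 3 * B ω ^ 1))
        (g := fun ω => 6 * (A ω ^ 2 * B ω ^ 2) + (4 * (A ω ^ 1 * B ω ^ 3) + B ω ^ 4))
        (i1.add i2) (i3.add (i4.add i5)),
      integral_add (f := fun ω => A ω ^ 4) (g := fun ω => 4 * (A ω ^ 3 * B ω ^ 1)) i1 i2,
      integral_add (f := fun ω => 6 * (A ω ^ 2 * B ω ^ 2))
        (g := fun ω => 4 * (A ω ^ 1 * B ω ^ 3) + B ω ^ 4) i3 (i4.add i5),
      integral_add (f := fun ω => 4 * (A ω ^ 1 * B ω ^ 3)) (g := fun ω => B ω ^ 4) i4 i5,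
      integral_const_mul, integral_const_mul, integral_const_mul,
      (mul 3 1 (by norm_num) (by norm_num)).2, (mul 2 2 (by norm_num) (by norm_num)).2,
      (mul 1 3 (by norm_num) (by norm_num)).2]
    simp only [pow_one, hA0, hB0, zero_mul, mul_zero]
    ring

end two

section many

variable {X : Type*} [mX : MeasurableSpace X] {P : Measure X} [IsProbabilityMeasure P]
  {ι : Type*} [Fintype ι] [DecidableEq ι] {h : ι → X → ℝ}

theorem many_mom (hi : iIndepFun h P) (h4 : ∀ i, MemLp (h i) 4 P)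
    (hm : ∀ i, AEMeasurable (h i) P) (h0 : ∀ i, ∫ ω, h i ω ∂P = 0) (S : Finset ι) :
    ∫ ω, (∑ i ∈ S, h i ω) ∂P = 0 ∧
    ∫ ω, (∑ i ∈ S, h i ω) ^ 2 ∂P = ∑ i ∈ S, ∫ ω, h i ω ^ 2 ∂P ∧
    ∫ ω, (∑ i ∈ S, h i ω) ^ 4 ∂P = ∑ i ∈ S, ∫ ω, h i ω ^ 4 ∂P +
      3 * (∑ i ∈ S, ∫ ω, h i ω ^ 2 ∂P) ^ 2 - 3 * ∑ i ∈ S, (∫ ω, h i ω ^ 2 ∂P) ^ 2 := by
  induction S using Finset.induction_on with
  | empty => simp
  | insert j S hj ih =>
    obtain ⟨k1, k2, k3⟩ := ih
    have hS : MemLp (fun ω => ∑ i ∈ S, h i ω) 4 P := memLp_finsetSum _ fun i _ => h4 i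
    have hind : IndepFun (h j) (fun ω => ∑ i ∈ S, h i ω) P := by
      have := (hi.indepFun_finsetSum_of_notMem₀ hm hj).symm
      refine this.congr (Eventually.of_forall fun ω => rfl) (Eventually.of_forall fun ω => ?_)
      simp
    obtain ⟨e2, e4⟩ := two_mom (h4 j) hS hind (h0 j) k1
    simp_rw [Finset.sum_insert hj]
    refine ⟨?_, ?_, ?_⟩
    · rw [integral_add ((h4 j).integrable (by norm_num)) (hS.integrable (by norm_num)), h0 j, k1,
        add_zero]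
    · rw [e2, k2]
    · rw [e4, k3, k2]
      ring

/-- the characteristic function of one small variable -/
theorem one_char {A : X → ℝ} (hA : MemLp A 4 P) (hA0 : ∫ ω, A ω ∂P = 0) {l : ℝ} (hl : 0 < l)
    (s : ℝ) :
    ‖∫ ω, Complex.exp ((s * A ω : ℝ) * Complex.I) ∂P -
      ((Real.exp (-(s ^ 2 / 2 * ∫ ω, A ω ^ 2 ∂P)) : ℝ) : ℂ)‖ ≤
      2 * |s| ^ 3 * (l * (∫ ω, A ω ^ 2 ∂P) + (∫ ω, A ω ^ 4 ∂P) / l) +
        (s ^ 2 / 2 * ∫ ω, A ω ^ 2 ∂P) ^ 2 := by
  set v := ∫ ω, A ω ^ 2 ∂P with hv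
  have i1 : Integrable (fun ω => A ω) P := hA.integrable (by norm_num)
  have i2 := pw_int hA 2 (by norm_num)
  have i4 := pw_int hA 4 le_rfl
  have hv0 : 0 ≤ v := integral_nonneg fun ω => sq_nonneg _
  have ie : Integrable (fun ω => Complex.exp ((s * A ω : ℝ) * Complex.I)) P := by
    refine (integrable_const (1 : ℝ)).mono' ?_ (Eventually.of_forall fun ω => ?_)
    · exact (Complex.continuous_exp.comp ((Complex.continuous_ofReal.comp
        (continuous_const.mul continuous_id)).mul continuous_const)).comp_aestronglyMeasurable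
        hA.aestronglyMeasurable
    · rw [Complex.norm_exp_ofReal_mul_I]
  have ic : Integrable (fun ω => (1 + ((s * A ω : ℝ) : ℂ) * Complex.I -
      ((s * A ω : ℝ) : ℂ) ^ 2 / 2)) P := by
    refine ((integrable_const (1 : ℂ)).add (((i1.const_mul s).ofReal).mul_const _)).sub ?_
    have : Integrable (fun ω => (((s ^ 2 / 2) * A ω ^ 2 : ℝ) : ℂ)) P := (i2.const_mul _).ofReal
    refine this.congr (Eventually.of_forall fun ω => ?_)
    push_cast
    ring
  have e1 : ∫ ω, (1 + ((s * A ω : ℝ) : ℂ) * Complex.I - ((s * A ω : ℝ) : ℂ) ^ 2 / 2) ∂P =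
      ((1 - s ^ 2 / 2 * v : ℝ) : ℂ) := by
    have e2 : ∀ ω, (1 + ((s * A ω : ℝ) : ℂ) * Complex.I - ((s * A ω : ℝ) : ℂ) ^ 2 / 2) =
        (1 + (((s * A ω : ℝ) : ℂ) * Complex.I)) - (((s ^ 2 / 2) * A ω ^ 2 : ℝ) : ℂ) := by
      intro ω; push_cast; ring
    simp_rw [e2]
    rw [integral_sub (f := fun ω => (1 + (((s * A ω : ℝ) : ℂ) * Complex.I)))
        (g := fun ω => (((s ^ 2 / 2) * A ω ^ 2 : ℝ) : ℂ))
        ((integrable_const (1 : ℂ)).add (((i1.const_mul s).ofReal).mul_const _))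
        ((i2.const_mul _).ofReal),
      integral_add (f := fun _ => (1 : ℂ)) (g := fun ω => ((s * A ω : ℝ) : ℂ) * Complex.I)
        (integrable_const (1 : ℂ)) (((i1.const_mul s).ofReal).mul_const _),
      integral_mul_const, integral_complex_ofReal, integral_const_mul, hA0,
      integral_complex_ofReal, integral_const_mul]
    simp
    exact Or.inl rfl
  have e3 : ‖∫ ω, Complex.exp ((s * A ω : ℝ) * Complex.I) ∂P - ((1 - s ^ 2 / 2 * v : ℝ) : ℂ)‖ ≤
      2 * |s| ^ 3 * (l * v + (∫ ω, A ω ^ 4 ∂P) / l) := by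
    rw [← e1, ← integral_sub ie ic]
    refine (norm_integral_le_integral_norm _).trans ?_
    have hb : ∀ ω, ‖Complex.exp ((s * A ω : ℝ) * Complex.I) -
        (1 + ((s * A ω : ℝ) : ℂ) * Complex.I - ((s * A ω : ℝ) : ℂ) ^ 2 / 2)‖ ≤
        2 * |s| ^ 3 * (l * A ω ^ 2 + A ω ^ 4 / l) := by
      intro ω
      refine (exp_three _).trans ?_
      rw [abs_mul, mul_pow]
      have h1 : 2 * |A ω| ^ 3 ≤ l * A ω ^ 2 + A ω ^ 4 / l := by
        have h2 : l * A ω ^ 2 + A ω ^ 4 / l - 2 * |A ω| ^ 3 = (A ω) ^ 2 / l * (l - |A ω|) ^ 2 := by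
          have h3 : |A ω| ^ 2 = A ω ^ 2 := sq_abs _
          have h4 : |A ω| ^ 3 = |A ω| * A ω ^ 2 := by rw [← h3]; ring
          have h5 : (l - |A ω|) ^ 2 = l ^ 2 - 2 * l * |A ω| + A ω ^ 2 := by rw [← h3]; ring
          rw [h4, h5]
          field_simp
          ring
        have h6 : 0 ≤ (A ω) ^ 2 / l * (l - |A ω|) ^ 2 := by positivity
        linarith
      have h7 : 0 ≤ |s| ^ 3 := by positivity
      nlinarith
    refine (integral_mono_of_nonneg (Eventually.of_forall fun ω => norm_nonneg _) ?_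
      (Eventually.of_forall hb)).trans (le_of_eq ?_)
    · exact ((i2.const_mul l).add (i4.div_const l)).const_mul _
    · rw [integral_const_mul, integral_add (f := fun ω => l * A ω ^ 2) (g := fun ω => A ω ^ 4 / l)
        (i2.const_mul l) (i4.div_const l), integral_const_mul, integral_div]
  have e4 : ‖((1 - s ^ 2 / 2 * v : ℝ) : ℂ) - ((Real.exp (-(s ^ 2 / 2 * v)) : ℝ) : ℂ)‖ ≤
      (s ^ 2 / 2 * v) ^ 2 := by
    rw [← Complex.ofReal_sub, Complex.norm_real, Real.norm_eq_abs, abs_sub_comm]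
    exact exp_two _ (by positivity)
  calc _ ≤ ‖∫ ω, Complex.exp ((s * A ω : ℝ) * Complex.I) ∂P - ((1 - s ^ 2 / 2 * v : ℝ) : ℂ)‖ +
        ‖((1 - s ^ 2 / 2 * v : ℝ) : ℂ) - ((Real.exp (-(s ^ 2 / 2 * v)) : ℝ) : ℂ)‖ :=
        norm_sub_le_norm_sub_add_norm_sub _ _ _
    _ ≤ _ := add_le_add e3 e4

/-- **the central limit estimate** -/
theorem clt (hi : iIndepFun h P) (h4 : ∀ i, MemLp (h i) 4 P)
    (hm : ∀ i, AEMeasurable (h i) P) (h0 : ∀ i, ∫ ω, h i ω ∂P = 0) {F : X → ℝ}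
    (hF : F =ᵐ[P] fun ω => ∑ i, h i ω) (hF4 : ∫ ω, F ω ^ 4 ∂P = 3 * (∫ ω, F ω ^ 2 ∂P) ^ 2)
    {l : ℝ} (hl : 0 < l) (hv : ∀ i, ∫ ω, h i ω ^ 2 ∂P ≤ l ^ 2) (s : ℝ) :
    ‖∫ ω, Complex.exp ((s * F ω : ℝ) * Complex.I) ∂P -
      ((Real.exp (-(s ^ 2 / 2 * ∫ ω, F ω ^ 2 ∂P)) : ℝ) : ℂ)‖ ≤
      (8 * |s| ^ 3 * l + s ^ 4 / 4 * l ^ 2) * ∫ ω, F ω ^ 2 ∂P := by
  obtain ⟨k1, k2, k3⟩ := many_mom hi h4 hm h0 Finset.univ
  set v : ι → ℝ := fun i => ∫ ω, h i ω ^ 2 ∂P with hvdef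
  set q : ι → ℝ := fun i => ∫ ω, h i ω ^ 4 ∂P with hqdef
  have hv0 : ∀ i, 0 ≤ v i := fun i => integral_nonneg fun ω => sq_nonneg _
  have hF2 : ∫ ω, F ω ^ 2 ∂P = ∑ i, v i := by
    rw [← k2]
    exact integral_congr_ae (hF.mono fun ω hω => by simp only [hω])
  have hF4' : ∑ i, q i = 3 * ∑ i, v i ^ 2 := by
    have h5 : ∫ ω, F ω ^ 4 ∂P = ∫ ω, (∑ i, h i ω) ^ 4 ∂P :=
      integral_congr_ae (hF.mono fun ω hω => by simp only [hω])
    rw [h5, k3, hF2] at hF4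
    linarith
  have hvv : ∑ i, v i ^ 2 ≤ l ^ 2 * ∑ i, v i := by
    rw [Finset.mul_sum]
    refine Finset.sum_le_sum fun i _ => ?_
    rw [sq]
    exact mul_le_mul_of_nonneg_right (hv i) (hv0 i)
  have e1 : ∫ ω, Complex.exp ((s * F ω : ℝ) * Complex.I) ∂P =
      ∏ i, ∫ ω, Complex.exp ((s * h i ω : ℝ) * Complex.I) ∂P := by
    have hc : iIndepFun (fun i ω => Complex.exp ((s * h i ω : ℝ) * Complex.I)) P :=
      hi.comp (fun _ x => Complex.exp ((s * x : ℝ) * Complex.I)) fun _ => by fun_prop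
    rw [← hc.integral_fun_prod_eq_prod_integral]
    · refine integral_congr_ae (hF.mono fun ω hω => ?_)
      simp only [hω]
      rw [← Complex.exp_sum]
      congr 1
      push_cast
      rw [Finset.mul_sum, Finset.sum_mul]
    · intro i
      exact (Complex.continuous_exp.comp ((Complex.continuous_ofReal.comp
        (continuous_const.mul continuous_id)).mul continuous_const)).comp_aestronglyMeasurable
        (h4 i).aestronglyMeasurable
  have e2 : ((Real.exp (-(s ^ 2 / 2 * ∫ ω, F ω ^ 2 ∂P)) : ℝ) : ℂ) =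
      ∏ i, ((Real.exp (-(s ^ 2 / 2 * v i)) : ℝ) : ℂ) := by
    rw [← Complex.ofReal_prod, ← Real.exp_sum, hF2, Finset.sum_neg_distrib, Finset.mul_sum]
  rw [e1, e2, hF2]
  refine (prod_diff _ _ _ (fun i => ?_) fun i => ?_).trans ?_
  · refine (norm_integral_le_integral_norm _).trans (le_of_eq ?_)
    simp_rw [Complex.norm_exp_ofReal_mul_I]
    simp
  · rw [Complex.norm_real, Real.norm_eq_abs, abs_of_pos (Real.exp_pos _), Real.exp_le_one_iff]
    have := hv0 i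
    have : 0 ≤ s ^ 2 / 2 * v i := by positivity
    linarith
  · calc ∑ i, ‖∫ ω, Complex.exp ((s * h i ω : ℝ) * Complex.I) ∂P -
          ((Real.exp (-(s ^ 2 / 2 * v i)) : ℝ) : ℂ)‖ ≤
        ∑ i, (2 * |s| ^ 3 * (l * v i + q i / l) + (s ^ 2 / 2 * v i) ^ 2) :=
          Finset.sum_le_sum fun i _ => one_char (h4 i) (h0 i) hl s
      _ = 2 * |s| ^ 3 * (l * ∑ i, v i + (∑ i, q i) / l) + s ^ 4 / 4 * ∑ i, v i ^ 2 := by
        rw [Finset.sum_add_distrib, ← Finset.mul_sum, Finset.sum_add_distrib, ← Finset.mul_sum,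
          Finset.sum_div]
        congr 1
        rw [Finset.mul_sum]
        refine Finset.sum_congr rfl fun i _ => ?_
        ring
      _ ≤ 2 * |s| ^ 3 * (l * ∑ i, v i + 3 * l * ∑ i, v i) +
          s ^ 4 / 4 * (l ^ 2 * ∑ i, v i) := by
        have h6 : (∑ i, q i) / l ≤ 3 * l * ∑ i, v i := by
          rw [div_le_iff₀ hl, hF4']
          nlinarith
        gcongr
      _ = _ := by ring

end many

end

end Pool.Agent.Helper19.BW
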