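import Pool.Agent.Helper19.BW.Spec

/-!
# The unit circle is null for the convolution of two continuous measures of the plane
-/

set_option autoImplicit false
open MeasureTheory Filter Topology ProbabilityTheory Set
open scoped RealInnerProductSpace

namespace Pool.Agent.Helper19.BW

noncomputable section

theorem sym_eq_one {ξ : ℂ} : sym ξ = 1 ↔ ξ = 0 := by
  unfold sym
  rw [Real.exp_eq_one_iff]
  constructor
  · intro h
    have : ‖ξ‖ ^ 2 = 0 := by linarith
    exact norm_eq_zero.1 (pow_eq_zero_iff (two_ne_zero) |>.1 this)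
  · rintro rfl; simp

theorem sym_eq_circle {ξ : ℂ} : sym ξ = Real.exp (-1 / 2) ↔ ‖ξ‖ = 1 := by
  unfold sym
  rw [Real.exp_eq_exp]
  constructor
  · intro h
    have h1 : ‖ξ‖ ^ 2 = 1 := by linarith
    have h2 := norm_nonneg ξ
    nlinarith
  · intro h; rw [h]; norm_num

theorem circle_inter {σ : Measure ℂ} (hσ : ∀ z, σ {z} = 0) {y y' : ℂ} (h : y ≠ y') :
    σ ({ξ | ‖ξ + y‖ = 1} ∩ {ξ | ‖ξ + y'‖ = 1}) = 0 := by
  have : NullSingletonClass σ := ⟨hσ⟩
  refine Set.Finite.measure_zero ?_ σ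
  by_contra hinf
  rw [Set.not_finite] at hinf
  obtain ⟨p₁, hp₁, p₂, hp₂, h12⟩ := hinf.nontrivial
  have hall : ({ξ | ‖ξ + y‖ = 1} ∩ {ξ | ‖ξ + y'‖ = 1} : Set ℂ) ⊆ {p₁, p₂} := by
    intro p hp
    have hd : Module.finrank ℝ ℂ = 2 := Complex.finrank_real_complex
    have e : ∀ q z : ℂ, ‖q + z‖ = 1 → dist q (-z) = 1 := by
      intro q z hq
      rw [dist_eq_norm, sub_neg_eq_add, hq]
    exact EuclideanGeometry.eq_of_dist_eq_of_dist_eq_of_finrank_eq_two hd
      (c₁ := -y) (c₂ := -y') (fun h' => h (neg_injective h')) h12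
      (e _ _ hp₁.1) (e _ _ hp₂.1) (e _ _ hp.1) (e _ _ hp₁.2) (e _ _ hp₂.2) (e _ _ hp.2)
  exact hinf ((Set.toFinite _).subset hall)

theorem conv_apply (σ τ : Measure ℂ) [IsFiniteMeasure σ] [IsFiniteMeasure τ] {S : Set ℂ}
    (hS : MeasurableSet S) : (σ ∗ τ) S = ∫⁻ y, σ {ξ | ξ + y ∈ S} ∂τ := by
  rw [Measure.conv_comm, Measure.conv, Measure.map_apply (by fun_prop) hS,
    Measure.prod_apply (measurable_add hS)]
  refine lintegral_congr fun y => ?_
  congr 1
  ext ξ
  simp [add_comm]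

theorem conv_atom (σ τ : Measure ℂ) [IsFiniteMeasure σ] [IsFiniteMeasure τ]
    (hσ : ∀ z, σ {z} = 0) (z : ℂ) : (σ ∗ τ) {z} = 0 := by
  rw [conv_apply σ τ (measurableSet_singleton z)]
  have h : ∀ y, σ {ξ | ξ + y ∈ ({z} : Set ℂ)} = 0 := by
    intro y
    have : {ξ | ξ + y ∈ ({z} : Set ℂ)} = {z - y} := by
      ext ξ; simp [eq_sub_iff_add_eq]
    rw [this, hσ]
  rw [lintegral_congr h, lintegral_zero]

/-- the unit circle is null for the convolution of two continuous measures -/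
theorem conv_circle (σ τ : Measure ℂ) [IsFiniteMeasure σ] [IsFiniteMeasure τ]
    (hσ : ∀ z, σ {z} = 0) (hτ : ∀ z, τ {z} = 0) : (σ ∗ τ) {ξ | ‖ξ‖ = 1} = 0 := by
  have hm : MeasurableSet {ξ : ℂ | ‖ξ‖ = 1} :=
    measurableSet_eq_fun measurable_norm measurable_const
  rw [conv_apply σ τ hm]
  have hc : Set.Countable {y : ℂ | 0 < σ {ξ | ‖ξ + y‖ = 1}} := by
    refine Measure.countable_meas_pos_of_disjoint_iUnion₀ (fun y => ?_) fun y y' h => ?_
    · exact (measurableSet_eq_fun (by fun_prop) measurable_const).nullMeasurableSet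
    · exact circle_inter hσ h
  have h0 : τ {y : ℂ | 0 < σ {ξ | ‖ξ + y‖ = 1}} = 0 := by
    have : NullSingletonClass τ := ⟨hτ⟩
    exact hc.measure_zero τ
  rw [lintegral_eq_zero_iff' ?_]
  · refine measure_mono_null ?_ h0
    intro y hy
    exact pos_iff_ne_zero.2 hy
  · have : Measurable fun y => σ ((fun ξ => (y, ξ)) ⁻¹' {p : ℂ × ℂ | ‖p.2 + p.1‖ = 1}) :=
      measurable_measure_prodMk_left (measurableSet_eq_fun (by fun_prop) measurable_const)
    exact this.aemeasurable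

end

end Pool.Agent.Helper19.BW
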