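import Pool.Graph.R_pool_sql_team_seeded_63374d34.N661.BR.Defs

/-!
# Waves which are functions of independent weakly mixing systems: definitions

`MW` is the space of all smooth real solutions of `Δf + f = 0` in the plane `ℂ`, and `shift x f` is
the translate `y ↦ f (y + x)`, see `Pool.Agent.N661.BR.Defs`.
-/

set_option autoImplicit false
open MeasureTheory ProbabilityTheory

namespace Pool.Agent.Helper19.BW

open Pool.Agent.N661.BR (MW shift)

/-- The σ-algebra `𝒜` is weakly mixing for the measure preserving action `T` of the plane on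
`(X, P)`: every event `A` in `𝒜` has continuous spectrum, i.e. the correlation function
`P (A ∩ T_x⁻¹ A) - P(A)²` is the Fourier transform of a finite measure without atoms. -/
def IsWeaklyMixing {X : Type} [MeasurableSpace X] (P : Measure X) (T : ℂ → X → X)
    (𝒜 : MeasurableSpace X) : Prop :=
  ∀ A : Set X, MeasurableSet[𝒜] A → ∃ σ : Measure ℂ, IsFiniteMeasure σ ∧ (∀ z : ℂ, σ {z} = 0) ∧
    ∀ x : ℂ, ((P.real (A ∩ T x ⁻¹' A) - P.real A ^ 2 : ℝ) : ℂ) = charFun σ x

/-- `T` is a measure preserving action of the plane on the probability space `(X, P)`, and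
`𝒜 0, …, 𝒜 (n - 1)` are independent, invariant, weakly mixing σ-algebras: `n` independent
sources. -/
structure IsSources {X : Type} [mX : MeasurableSpace X] (P : Measure X) (T : ℂ → X → X) {n : ℕ}
    (𝒜 : Fin n → MeasurableSpace X) : Prop where
  prob : IsProbabilityMeasure P
  pres : ∀ x : ℂ, MeasurePreserving (T x) P P
  zero : ∀ ω : X, T 0 ω = ω
  add : ∀ (x y : ℂ) (ω : X), T (x + y) ω = T x (T y ω)
  le : ∀ i, 𝒜 i ≤ mX
  inv : ∀ i (x : ℂ), Measurable[𝒜 i, 𝒜 i] (T x)
  indep : iIndep 𝒜 P
  mixing : ∀ i, IsWeaklyMixing P T (𝒜 i)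

/-- `κ` is the law of a random wave `Φ` which is an equivariant function (of any kind) of finitely
many independent sources, none of which explains more than `δ` of the variance of the value
`Φ(0)`: the variance of the conditional expectation of `Φ(0)` given each source is at most `δ`. -/
def HasSources (κ : Measure MW) (δ : ℝ) : Prop :=
  ∃ (X : Type) (_ : MeasurableSpace X) (P : Measure X) (T : ℂ → X → X) (n : ℕ)
    (𝒜 : Fin n → MeasurableSpace X) (Φ : X → MW),
    IsSources P T 𝒜 ∧ Measurable[⨆ i, 𝒜 i] Φ ∧ (∀ x : ℂ, ∀ᵐ ω ∂P, Φ (T x ω) = shift x (Φ ω)) ∧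
    P.map Φ = κ ∧ ∀ i, ∫ ω, (P[fun ω' => Φ ω' 0 | 𝒜 i]) ω ^ 2 ∂P ≤ δ

end Pool.Agent.Helper19.BW
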