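import Pool.Agent.Helper19.BW.Wave

/-!
# Waves with sources of small influence are nearly Gaussian
-/

set_option autoImplicit false
set_option linter.unusedSectionVars false
open MeasureTheory Filter Topology ProbabilityTheory

namespace Pool.Agent.Helper19.BW

open Pool.Agent.N661.BR (MW shift IsStationary IsErgodic lin IsGaussianLaw J0 IsRandomWave cov
  parallel Four meas_eval meas_shift meas_lin)

noncomputable section

variable {κ : Measure MW}

theorem hs_basic {δ : ℝ} (h : HasSources κ δ) :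
    IsProbabilityMeasure κ ∧ IsStationary κ ∧ IsErgodic κ := by
  obtain ⟨X, mX, P, T, n, 𝒜, Φ, hS, hΦ, hE, rfl, -⟩ := h
  have := hS.prob
  exact ⟨Measure.isProbabilityMeasure_map (phi_meas hS hΦ).aemeasurable, phi_stat hS hΦ hE,
    phi_erg hS hΦ hE⟩

theorem hs_par {δ : ℝ} (h : HasSources κ δ)
    (h2 : Integrable (fun f : MW => f 0 ^ 2) κ) {m : ℝ} {ν : Measure ℝ}
    (hν : IsProbabilityMeasure ν) (hm : 0 < m)
    (hcov : ∀ w w' : ℂ, ∫ f : MW, f w * f w' ∂κ = m * cov ν (w - w')) : parallel ν = 0 := by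
  obtain ⟨X, mX, P, T, n, 𝒜, Φ, hS, hΦ, hE, rfl, -⟩ := h
  exact par_zero hS hΦ hE h2 hν hm hcov

/-- the characteristic functions of a wave with small sources and Gaussian fourth moments -/
theorem char_of {m : ℝ} {ν : Measure ℝ} (H : Four κ m ν) {δ : ℝ} (h : HasSources κ δ)
    {k : ℕ} (w : Fin k → ℂ) (t : Fin k → ℝ) {l : ℝ} (hl : 0 < l)
    (hδl : (∑ j, t j ^ 2) * (k * δ) ≤ l ^ 2) :
    ‖∫ f, Complex.exp (Complex.I * (lin w t f : ℝ)) ∂κ -
      ((Real.exp (-(1 / 2 * ∫ f, lin w t f ^ 2 ∂κ)) : ℝ) : ℂ)‖ ≤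
      (8 * l + l ^ 2 / 4) * ∫ f, lin w t f ^ 2 ∂κ := by
  have hp := (hs_basic h).1
  set V := ∫ f, lin w t f ^ 2 ∂κ with hV
  obtain ⟨X, mX, P, T, n, 𝒜, Φ, hS, hΦ, hE, hκ, hδ⟩ := h
  have := hS.prob
  have hm := phi_meas hS hΦ
  subst hκ
  have h2 : Integrable (fun f : MW => f 0 ^ 2) (P.map Φ) := H.i2 0
  obtain ⟨z0, z1⟩ := lin_split hS hΦ hE h2 w t
  have hL4 : MemLp (fun ω => lin w t (Φ ω)) 4 P := by
    have := (memLp_map_measure_iff (meas_lin w t).aestronglyMeasurable hm.aemeasurable).1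
      (H.memLin w t)
    exact this
  set F : X → ℝ := fun ω => lin w t (Φ ω) with hF
  have e2 : ∫ ω, F ω ^ 2 ∂P = V := by
    rw [hV, integral_map hm.aemeasurable
      ((meas_lin w t).pow_const 2).aestronglyMeasurable]
  have e4 : ∫ ω, F ω ^ 4 ∂P = 3 * (∫ ω, F ω ^ 2 ∂P) ^ 2 := by
    rw [e2, hV, H.lin2 w t, ← H.lin4 w t, integral_map hm.aemeasurable
      ((meas_lin w t).pow_const 4).aestronglyMeasurable]
  have hcl := clt (P := P) (h := fun i => P[F | 𝒜 i]) (F := F)
    (indep_fun hS.indep fun i => stronglyMeasurable_condExp.measurable)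
    (fun i => hL4.condExp (by norm_num))
    (fun i => (stronglyMeasurable_condExp.mono (hS.le i)).measurable.aemeasurable)
    (fun i => by rw [integral_condExp (hS.le i)]; exact z0) z1 e4 hl
    (fun i => (lin_infl hS hΦ hE h2 i (hδ i) w t).trans hδl) 1
  rw [e2] at hcl
  have e5 : ∫ f, Complex.exp (Complex.I * (lin w t f : ℝ)) ∂(P.map Φ) =
      ∫ ω, Complex.exp ((1 * F ω : ℝ) * Complex.I) ∂P := by
    rw [integral_map hm.aemeasurable]
    · refine integral_congr_ae (Eventually.of_forall fun ω => ?_)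
      show Complex.exp (Complex.I * (lin w t (Φ ω) : ℝ)) =
        Complex.exp ((1 * lin w t (Φ ω) : ℝ) * Complex.I)
      rw [one_mul, mul_comm]
    · have : Measurable fun f : MW => Complex.exp (Complex.I * (lin w t f : ℝ)) := by
        have := meas_lin w t
        fun_prop
      exact this.aestronglyMeasurable
  rw [e5]
  have e6 : (8 * |(1 : ℝ)| ^ 3 * l + 1 ^ 4 / 4 * l ^ 2) * V = (8 * l + l ^ 2 / 4) * V := by
    rw [abs_one]; ring
  rw [e6] at hcl
  have e7 : (1 : ℝ) ^ 2 / 2 * V = 1 / 2 * V := by ring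
  rw [e7] at hcl
  exact hcl

end

end Pool.Agent.Helper19.BW
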