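import Pool.Agent.Helper19.BW.Main
import Pool.Graph.R_pool_sql_team_seeded_63374d34.N661.BR.Fin

/-!
# Mixtures of waves with sources of small influence
-/

set_option autoImplicit false
open MeasureTheory Filter Topology ProbabilityTheory
open scoped ENNReal

namespace Pool.Agent.Helper19.BW

open Pool.Agent.N661.BR

noncomputable section

variable {S : Type*} [MeasurableSpace S] {P : Measure S} [IsProbabilityMeasure P]
  {κ : Kernel S MW} [IsMarkovKernel κ] {μ : Measure MW}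

theorem mix_sources
    (hQ : ∀ v : ℤ →₀ ℝ, Bal v → ∀ l : ℤ,
      ∫⁻ f : MW, ENNReal.ofReal (‖QV v l 1 f 0‖ ^ 2) ∂μ ≤ ENNReal.ofReal (KV v l))
    (hvar : ∫ f : MW, f 0 ^ 2 ∂μ = 1) (hκ : P.bind κ = μ) {δ : ℝ}
    (h : ∀ᵐ s ∂P, HasSources (κ s) δ) {k : ℕ} (w : Fin k → ℂ) (t : Fin k → ℝ) {l : ℝ}
    (hl : 0 < l) (hδl : (∑ j, t j ^ 2) * (k * δ) ≤ l ^ 2) :
    ‖∫ f, Complex.exp (Complex.I * (lin w t f : ℝ)) ∂μ -
      ((Real.exp (-(1 / 2 * ∑ i, ∑ j, t i * t j * J0 ‖w i - w j‖)) : ℝ) : ℂ)‖ ≤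
      (8 * l + l ^ 2 / 4) * ∑ i, ∑ j, t i * t j * J0 ‖w i - w j‖ := by
  have hm : Measurable (fun f : MW => ENNReal.ofReal (f 0 ^ 2)) :=
    ENNReal.measurable_ofReal.comp ((meas_eval 0).pow_const 2)
  -- second moments
  have k1 : ∀ᵐ s ∂P, Integrable (fun f : MW => f 0 ^ 2) (κ s) := by
    have hi : Integrable (fun f : MW => f 0 ^ 2) μ := by
      by_contra h
      rw [integral_undef h] at hvar
      norm_num at hvar
    have h1 : ∫⁻ f : MW, ENNReal.ofReal (f 0 ^ 2) ∂μ = 1 := by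
      rw [← ofReal_integral_eq_lintegral_ofReal hi (Eventually.of_forall fun f => by positivity),
        hvar, ENNReal.ofReal_one]
    rw [dis hκ hm] at h1
    have h2 : ∀ᵐ s ∂P, ∫⁻ f : MW, ENNReal.ofReal (f 0 ^ 2) ∂(κ s) < ⊤ :=
      ae_lt_top' hm.lintegral_kernel.aemeasurable (by rw [h1]; norm_num)
    filter_upwards [h2] with s hs
    refine ⟨((meas_eval 0).pow_const 2).aestronglyMeasurable, ?_⟩
    rw [hasFiniteIntegral_iff_ofReal (Eventually.of_forall fun f => by positivity)]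
    exact hs
  -- stationarity and ergodicity
  have k2 : ∀ᵐ s ∂P, IsStationary (κ s) ∧ IsErgodic (κ s) := h.mono fun s hs => (hs_basic hs).2
  -- spectral measures
  have hex : ∀ s, ∃ (m : ℝ) (ν : Measure ℝ), IsStationary (κ s) →
      Integrable (fun f : MW => f 0 ^ 2) (κ s) → IsProbabilityMeasure ν ∧ 0 ≤ m ∧
      (m = 0 → parallel ν = 0) ∧
      ∀ w w' : ℂ, ∫ f : MW, f w * f w' ∂(κ s) = m * cov ν (w - w') := by
    intro s
    by_cases hs : IsStationary (κ s) ∧ Integrable (fun f : MW => f 0 ^ 2) (κ s)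
    · obtain ⟨m, ν, hν, hm0, hc⟩ := Pool.Agent.N878.BR.BOCH (κ s) inferInstance hs.1 hs.2
      by_cases h0 : m = 0
      · refine ⟨0, unif, fun _ _ => ⟨Pool.Agent.N141.BRUNIF.prob, le_rfl,
          fun _ => Pool.Agent.N141.BRUNIF.par, fun w w' => ?_⟩⟩
        rw [hc, h0, zero_mul, zero_mul]
      · exact ⟨m, ν, fun _ _ => ⟨hν, hm0, fun h => absurd h h0, hc⟩⟩
    · exact ⟨0, 0, fun h1 h2 => absurd ⟨h1, h2⟩ hs⟩
  choose m ν hmν using hex
  have hν : ∀ᵐ s ∂P, IsProbabilityMeasure (ν s) ∧ parallel (ν s) = 0 ∧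
      ∀ w w' : ℂ, ∫ f : MW, f w * f w' ∂(κ s) = m s * cov (ν s) (w - w') := by
    filter_upwards [h, k1, k2] with s hs h1 h2
    obtain ⟨e1, e2, e3, e4⟩ := hmν s h2.1 h1
    refine ⟨e1, ?_, e4⟩
    rcases e2.eq_or_lt with h5 | h5
    · exact e3 h5.symm
    · exact hs_par hs h1 e1 h5 e4
  set V : ℝ := ∑ i, ∑ j, t i * t j * J0 ‖w i - w j‖ with hV
  have key : ∀ᵐ s ∂P, ‖∫ f, Complex.exp (Complex.I * (lin w t f : ℝ)) ∂(κ s) -
      ((Real.exp (-(1 / 2 * V)) : ℝ) : ℂ)‖ ≤ (8 * l + l ^ 2 / 4) * V := by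
    filter_upwards [h, mixture allParts hQ hvar hκ m ν hν (k2.mono fun s hs => Or.inl hs)]
      with s hs0 hs
    obtain ⟨h1, h2, h3, -⟩ := hs
    have h4 := char_of h3 hs0 w t hl hδl
    rw [h3.lin2, h1, one_mul] at h4
    simp only [h2] at h4
    exact h4
  set f0 : MW → ℂ := fun f => Complex.exp (Complex.I * (lin w t f : ℝ)) with hf0
  have hf0m : Measurable f0 := by
    have := meas_lin w t
    rw [hf0]
    fun_prop
  have hf0b : ∀ f, ‖f0 f‖ = 1 := by
    intro f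
    rw [hf0]
    show ‖Complex.exp (Complex.I * (lin w t f : ℝ))‖ = 1
    rw [mul_comm, Complex.norm_exp_ofReal_mul_I]
  have e1 : ∫ f, f0 f ∂μ = ∫ s, ∫ f, f0 f ∂(κ s) ∂P := by
    rw [← hκ, ← Measure.snd_compProd, Measure.snd, integral_map measurable_snd.aemeasurable
      hf0m.aestronglyMeasurable, Measure.integral_compProd]
    refine (integrable_const (1 : ℝ)).mono' (hf0m.comp measurable_snd).aestronglyMeasurable
      (Eventually.of_forall fun p => (hf0b _).le)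
  have i1 : Integrable (fun s => ∫ f, f0 f ∂(κ s)) P := by
    refine (integrable_const (1 : ℝ)).mono' ?_ (Eventually.of_forall fun s => ?_)
    · exact (hf0m.stronglyMeasurable.integral_kernel).aestronglyMeasurable
    · refine (norm_integral_le_integral_norm _).trans ?_
      simp_rw [hf0b]
      simp
  have e2 : ∫ f, f0 f ∂μ - ((Real.exp (-(1 / 2 * V)) : ℝ) : ℂ) =
      ∫ s, (∫ f, f0 f ∂(κ s) - ((Real.exp (-(1 / 2 * V)) : ℝ) : ℂ)) ∂P := by
    rw [e1, integral_sub i1 (integrable_const _)]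
    simp
  rw [e2]
  refine (norm_integral_le_of_norm_le_const key).trans (le_of_eq ?_)
  simp

end

end Pool.Agent.Helper19.BW
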