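import Pool.Agent.Helper19.BW.Clt

/-!
# Measure preserving actions of the plane
-/

set_option autoImplicit false
set_option linter.unusedSectionVars false
open MeasureTheory Filter Topology ProbabilityTheory
open scoped RealInnerProductSpace

namespace Pool.Agent.Helper19.BW

noncomputable section

variable {X : Type*} [mX : MeasurableSpace X] {P : Measure X} [IsProbabilityMeasure P]
  {T : ℂ → X → X}

/-- the Koopman representation -/
def UU (hp : ∀ x, MeasurePreserving (T x) P P) (x : ℂ) : Lp ℝ 2 P →ₗᵢ[ℝ] Lp ℝ 2 P :=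
  Lp.compMeasurePreservingₗᵢ ℝ (T x) (hp x)

theorem UU_ae (hp : ∀ x, MeasurePreserving (T x) P P) (x : ℂ) (v : Lp ℝ 2 P) :
    ∀ᵐ ω ∂P, UU hp x v ω = v (T x ω) :=
  Lp.coeFn_compMeasurePreserving v (hp x)

theorem UU_rep (hp : ∀ x, MeasurePreserving (T x) P P) (h0 : ∀ ω, T 0 ω = ω)
    (ha : ∀ x y ω, T (x + y) ω = T x (T y ω)) : IsRep (UU hp) where
  zero v := by
    refine Lp.ext ?_
    filter_upwards [UU_ae hp 0 v] with ω hω
    rw [hω, h0]
  add x y v := by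
    refine Lp.ext ?_
    have h1 := (hp x).quasiMeasurePreserving.ae (UU_ae hp y v)
    filter_upwards [UU_ae hp (x + y) v, UU_ae hp x (UU hp y v), h1] with ω e1 e2 e3
    rw [e1, e2, e3, add_comm, ha]

theorem inner_toLp {f g : X → ℝ} (hf : MemLp f 2 P) (hg : MemLp g 2 P) :
    ⟪hf.toLp f, hg.toLp g⟫ = ∫ ω, f ω * g ω ∂P := by
  rw [L2.inner_def]
  refine integral_congr_ae ?_
  filter_upwards [hf.coeFn_toLp, hg.coeFn_toLp] with ω h1 h2
  rw [h1, h2]
  simp [mul_comm]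

/-- the spectral measure of a function -/
def IsSpF (P : Measure X) (T : ℂ → X → X) (f : X → ℝ) (τ : Measure ℂ) : Prop :=
  ∀ x : ℂ, ((∫ ω, f (T x ω) * f ω ∂P : ℝ) : ℂ) = charFun τ x

theorem IsSpF.toLp (hp : ∀ x, MeasurePreserving (T x) P P) {f : X → ℝ} (hf : MemLp f 2 P)
    {τ : Measure ℂ} (h : IsSpF P T f τ) : IsSp (UU hp) (hf.toLp f) τ := by
  intro x
  rw [← h x]
  congr 1
  rw [L2.inner_def]
  refine integral_congr_ae ?_
  filter_upwards [hf.coeFn_toLp, UU_ae hp x (hf.toLp f),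
    (hp x).quasiMeasurePreserving.ae hf.coeFn_toLp] with ω h1 h2 h3
  rw [h1, h2, h3]
  simp [mul_comm]

/-- **functions with singular (radially separated) spectral measures are orthogonal** -/
theorem orthF (hp : ∀ x, MeasurePreserving (T x) P P) (h0 : ∀ ω, T 0 ω = ω)
    (ha : ∀ x y ω, T (x + y) ω = T x (T y ω)) {f g : X → ℝ} (hf : MemLp f 2 P)
    (hg : MemLp g 2 P) {ρ τ : Measure ℂ} [IsFiniteMeasure ρ] [IsFiniteMeasure τ]
    (h1 : IsSpF P T f ρ) (h2 : IsSpF P T g τ) {c : ℝ} (hc0 : 0 < c) (hc1 : c ≤ 1)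
    (hc : ∀ᵐ ξ ∂ρ, sym ξ = c) (hτ : τ {ξ | sym ξ = c} = 0) : ∫ ω, f ω * g ω ∂P = 0 := by
  rw [← inner_toLp hf hg]
  exact (UU_rep hp h0 ha).orth (h1.toLp hp hf) (h2.toLp hp hg) hc0 hc1 hc hτ

end

end Pool.Agent.Helper19.BW
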