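import Mathlib

/-!
# Unitary representations of the plane: orthogonality of vectors with singular spectral measures

`IsSp U v τ` says that the finite measure `τ` is the spectral measure of the vector `v` under the
isometric action `U` of the plane `ℂ`.
-/

set_option autoImplicit false
set_option linter.unusedSectionVars false
open MeasureTheory Filter Topology ProbabilityTheory
open scoped RealInnerProductSpace

namespace Pool.Agent.Helper19.BW

noncomputable section

/-- the Gaussian symbol -/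
def sym (ξ : ℂ) : ℝ := Real.exp (-(‖ξ‖ ^ 2) / 2)

theorem sym_pos (ξ : ℂ) : 0 < sym ξ := Real.exp_pos _

theorem sym_le (ξ : ℂ) : sym ξ ≤ 1 := by
  unfold sym
  rw [Real.exp_le_one_iff]
  have := sq_nonneg ‖ξ‖
  linarith

theorem sym_cont : Continuous sym := by
  unfold sym; fun_prop

/-- the Gaussian measures -/
def gam (j : ℕ) : Measure ℂ := (stdGaussian ℂ).map (fun x : ℂ => √(j : ℝ) • x)

instance (j : ℕ) : IsProbabilityMeasure (gam j) :=
  Measure.isProbabilityMeasure_map (by fun_prop)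

theorem charFun_gam (j : ℕ) (ξ : ℂ) : charFun (gam j) ξ = ((sym ξ ^ j : ℝ) : ℂ) := by
  unfold gam
  rw [charFun_map_smul, charFun_stdGaussian, norm_smul, Real.norm_eq_abs, sym, ← Real.exp_nat_mul]
  push_cast
  rw [mul_pow]
  have h : ((|√(j : ℝ)| : ℝ) : ℂ) ^ 2 = (j : ℂ) := by
    rw [← Complex.ofReal_pow, sq_abs, Real.sq_sqrt (Nat.cast_nonneg j)]
    simp
  rw [h]
  congr 1
  ring

theorem gam_neg (j : ℕ) : (gam j).map (fun x => -x) = gam j := by
  have : IsProbabilityMeasure ((gam j).map (fun x : ℂ => -x)) :=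
    Measure.isProbabilityMeasure_map (by fun_prop)
  refine Measure.ext_of_charFun ?_
  funext ξ
  have h : (fun x : ℂ => -x) = (fun x : ℂ => (-1 : ℝ) • x) := by
    funext x; simp
  rw [h, charFun_map_smul, charFun_gam, charFun_gam]
  simp [sym]

theorem gam_zero : gam 0 = Measure.dirac 0 := by
  unfold gam
  have h : (fun x : ℂ => √((0 : ℕ) : ℝ) • x) = fun _ => 0 := by
    funext x; simp
  rw [h, Measure.map_const, measure_univ, one_smul]

theorem integral_gam_neg {E : Type*} [NormedAddCommGroup E] [NormedSpace ℝ E] (j : ℕ)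
    (f : ℂ → E) : ∫ z, f (-z) ∂(gam j) = ∫ z, f z ∂(gam j) := by
  have h : MeasurableEmbedding (fun x : ℂ => -x) := (MeasurableEquiv.neg ℂ).measurableEmbedding
  conv_rhs => rw [← gam_neg j]
  rw [h.integral_map]

theorem charFun_swap (τ η : Measure ℂ) [IsFiniteMeasure τ] [IsFiniteMeasure η] :
    ∫ y, charFun τ y ∂η = ∫ ξ, charFun η ξ ∂τ := by
  unfold charFun
  rw [integral_integral_swap]
  · refine integral_congr_ae (Eventually.of_forall fun ξ => ?_)
    refine integral_congr_ae (Eventually.of_forall fun y => ?_)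
    simp only [real_inner_comm]
  · refine (integrable_const (1 : ℝ)).mono' (by fun_prop) (Eventually.of_forall fun p => ?_)
    simp only [Function.uncurry]
    rw [Complex.norm_exp_ofReal_mul_I]

section hilbert

variable {H : Type*} [NormedAddCommGroup H] [InnerProductSpace ℝ H] [CompleteSpace H]

/-- an isometric action of the plane -/
structure IsRep (U : ℂ → H →ₗᵢ[ℝ] H) : Prop where
  zero : ∀ v, U 0 v = v
  add : ∀ x y v, U (x + y) v = U x (U y v)

/-- `τ` is the spectral measure of `v` -/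
def IsSp (U : ℂ → H →ₗᵢ[ℝ] H) (v : H) (τ : Measure ℂ) : Prop :=
  ∀ x : ℂ, ((⟪U x v, v⟫ : ℝ) : ℂ) = charFun τ x

variable {U : ℂ → H →ₗᵢ[ℝ] H} {v w : H} {τ ρ : Measure ℂ}

theorem IsRep.inner_UU (hU : IsRep U) (y z : ℂ) (v w : H) : ⟪U y v, U z w⟫ = ⟪U (y - z) v, w⟫ := by
  have h : U y v = U z (U (y - z) v) := by
    rw [← hU.add]
    congr 2
    ring
  rw [h, (U z).inner_map_map]

theorem IsRep.inner_symm (hU : IsRep U) (y : ℂ) (v w : H) : ⟪U y v, w⟫ = ⟪v, U (-y) w⟫ := by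
  have := hU.inner_UU 0 (-y) v w
  rw [zero_sub, neg_neg, hU.zero] at this
  rw [this]

theorem charFun_cont (τ : Measure ℂ) [IsFiniteMeasure τ] : Continuous (charFun τ) := by
  unfold charFun
  refine continuous_of_dominated (bound := fun _ => 1) (fun x => by fun_prop) (fun x => ?_)
    (integrable_const _) ?_
  · refine Eventually.of_forall fun ξ => ?_
    rw [Complex.norm_exp_ofReal_mul_I]
  · exact Eventually.of_forall fun ξ => by fun_prop

theorem IsRep.cont [IsFiniteMeasure τ] (hU : IsRep U) (hv : IsSp U v τ) :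
    Continuous fun y => U y v := by
  have hr : Continuous fun x => ⟪U x v, v⟫ := by
    have h1 : Continuous fun x => ((⟪U x v, v⟫ : ℝ) : ℂ) := by
      simp_rw [hv _]
      exact charFun_cont τ
    have h2 := Complex.continuous_re.comp h1
    exact h2
  rw [continuous_iff_continuousAt]
  intro y
  rw [ContinuousAt, tendsto_iff_norm_sub_tendsto_zero]
  have h3 : ∀ z, ‖U z v - U y v‖ = √(2 * ‖v‖ ^ 2 - 2 * ⟪U (z - y) v, v⟫) := by
    intro z
    have h4 : ‖U z v - U y v‖ ^ 2 = 2 * ‖v‖ ^ 2 - 2 * ⟪U (z - y) v, v⟫ := by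
      rw [norm_sub_sq_real, (U z).norm_map, (U y).norm_map, hU.inner_UU]
      ring
    rw [← h4, Real.sqrt_sq (norm_nonneg _)]
  simp_rw [h3]
  have h5 : Tendsto (fun z => √(2 * ‖v‖ ^ 2 - 2 * ⟪U (z - y) v, v⟫)) (𝓝 y)
      (𝓝 (√(2 * ‖v‖ ^ 2 - 2 * ⟪U (y - y) v, v⟫))) := by
    refine Continuous.tendsto ?_ y
    refine Real.continuous_sqrt.comp (continuous_const.sub (continuous_const.mul ?_))
    exact hr.comp (continuous_id.sub continuous_const)
  rw [sub_self, hU.zero, real_inner_self_eq_norm_sq, sub_self, Real.sqrt_zero] at h5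
  exact h5

/-- the averages -/
def Lj (U : ℂ → H →ₗᵢ[ℝ] H) (j : ℕ) (v : H) : H := ∫ y, U y v ∂(gam j)

theorem IsRep.int [IsFiniteMeasure τ] (hU : IsRep U) (hv : IsSp U v τ) (j : ℕ) :
    Integrable (fun y => U y v) (gam j) := by
  refine (integrable_const ‖v‖).mono' (hU.cont hv).aestronglyMeasurable ?_
  exact Eventually.of_forall fun y => by rw [(U y).norm_map]

theorem IsRep.Lj_zero (hU : IsRep U) (v : H) : Lj U 0 v = v := by
  unfold Lj
  rw [gam_zero, integral_dirac, hU.zero]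

theorem IsRep.Lj_inner [IsFiniteMeasure τ] (hU : IsRep U) (hv : IsSp U v τ) (j l : ℕ) :
    ⟪Lj U j v, Lj U l v⟫ = ∫ ξ, sym ξ ^ (j + l) ∂τ := by
  have h1 : ⟪Lj U j v, Lj U l v⟫ = ∫ y, (∫ z, ⟪U y v, U z v⟫ ∂(gam l)) ∂(gam j) := by
    unfold Lj
    rw [real_inner_comm, ← integral_inner (hU.int hv j)]
    refine integral_congr_ae (Eventually.of_forall fun y => ?_)
    show ⟪(∫ z, U z v ∂(gam l)), U y v⟫ = _
    rw [real_inner_comm, ← integral_inner (hU.int hv l)]
  have h2 : ((⟪Lj U j v, Lj U l v⟫ : ℝ) : ℂ) = ((∫ ξ, sym ξ ^ (j + l) ∂τ : ℝ) : ℂ) := by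
    rw [h1, ← integral_complex_ofReal, ← integral_complex_ofReal]
    have h3 : ∀ y, ((∫ z, ⟪U y v, U z v⟫ ∂(gam l) : ℝ) : ℂ) = ∫ z, charFun τ (y + z) ∂(gam l) := by
      intro y
      rw [← integral_complex_ofReal, ← integral_gam_neg]
      refine integral_congr_ae (Eventually.of_forall fun z => ?_)
      show ((⟪U y v, U (-z) v⟫ : ℝ) : ℂ) = _
      rw [hU.inner_UU, hv _, sub_neg_eq_add]
    simp_rw [h3]
    rw [← integral_conv, charFun_swap]
    · refine integral_congr_ae (Eventually.of_forall fun ξ => ?_)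
      show charFun _ ξ = _
      rw [charFun_conv, charFun_gam, charFun_gam]
      simp only [pow_add]
      push_cast
      rfl
    · refine (integrable_const (τ.real Set.univ)).mono' (charFun_cont τ).aestronglyMeasurable ?_
      exact Eventually.of_forall fun y => norm_charFun_le y
  exact_mod_cast h2

theorem IsRep.Lj_symm [IsFiniteMeasure τ] [IsFiniteMeasure ρ] (hU : IsRep U) (hv : IsSp U v ρ)
    (hw : IsSp U w τ) (j : ℕ) : ⟪Lj U j v, w⟫ = ⟪v, Lj U j w⟫ := by
  unfold Lj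
  rw [real_inner_comm, ← integral_inner (hU.int hv j), ← integral_inner (hU.int hw j),
    ← integral_gam_neg]
  refine integral_congr_ae (Eventually.of_forall fun y => ?_)
  show ⟪w, U (-y) v⟫ = ⟪v, U y w⟫
  rw [real_inner_comm, hU.inner_symm, neg_neg]

theorem sym_pow_int (τ : Measure ℂ) [IsFiniteMeasure τ] (j : ℕ) :
    Integrable (fun ξ => sym ξ ^ j) τ := by
  refine (integrable_const (1 : ℝ)).mono' (sym_cont.pow j).aestronglyMeasurable ?_
  refine Eventually.of_forall fun ξ => ?_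
  rw [Real.norm_eq_abs, abs_of_nonneg (pow_nonneg (sym_pos ξ).le _)]
  exact pow_le_one₀ (sym_pos ξ).le (sym_le ξ)

theorem IsRep.Lj_eig [IsFiniteMeasure ρ] (hU : IsRep U) (hv : IsSp U v ρ) {c : ℝ}
    (hc : ∀ᵐ ξ ∂ρ, sym ξ = c) (j : ℕ) : Lj U j v = c ^ j • v := by
  have h0 : ∀ k : ℕ, ∫ ξ, sym ξ ^ k ∂ρ = c ^ k * ‖v‖ ^ 2 := by
    intro k
    have h1 : ∫ ξ, sym ξ ^ k ∂ρ = ∫ _, c ^ k ∂ρ :=
      integral_congr_ae (hc.mono fun ξ h => by simp only [h])
    rw [h1, integral_const, smul_eq_mul, mul_comm]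
    congr 1
    have h2 := hv 0
    rw [hU.zero, charFun_zero, real_inner_self_eq_norm_sq] at h2
    exact_mod_cast h2.symm
  have h1 : ‖Lj U j v - c ^ j • v‖ ^ 2 = 0 := by
    rw [norm_sub_sq_real, ← real_inner_self_eq_norm_sq, hU.Lj_inner hv, h0, real_inner_smul_right,
      norm_smul]
    have h2 : ⟪Lj U j v, v⟫ = c ^ j * ‖v‖ ^ 2 := by
      conv_lhs => rw [← hU.Lj_zero v]
      rw [hU.Lj_zero v]
      have h3 := hU.Lj_inner hv j 0
      rw [hU.Lj_zero, add_zero, h0] at h3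
      exact h3
    rw [h2, Real.norm_eq_abs, mul_pow, sq_abs, pow_add]
    ring
  rw [← sub_eq_zero, ← norm_eq_zero]
  exact pow_eq_zero_iff (two_ne_zero) |>.1 h1

/-- polynomials of the averages -/
def Pj (U : ℂ → H →ₗᵢ[ℝ] H) (p : Polynomial ℝ) (v : H) : H :=
  ∑ j ∈ p.support, p.coeff j • Lj U j v

theorem IsRep.Lp_norm [IsFiniteMeasure τ] (hU : IsRep U) (hw : IsSp U w τ) (p : Polynomial ℝ) :
    ‖Pj U p w‖ ^ 2 = ∫ ξ, p.eval (sym ξ) ^ 2 ∂τ := by
  rw [← real_inner_self_eq_norm_sq, Pj, sum_inner]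
  simp_rw [inner_sum, real_inner_smul_left, real_inner_smul_right, hU.Lj_inner hw]
  have h1 : ∀ ξ, p.eval (sym ξ) ^ 2 = ∑ i ∈ p.support, ∑ j ∈ p.support,
      p.coeff i * (p.coeff j * sym ξ ^ (i + j)) := by
    intro ξ
    rw [Polynomial.eval_eq_sum, Polynomial.sum_def, sq, Finset.sum_mul_sum]
    refine Finset.sum_congr rfl fun i _ => Finset.sum_congr rfl fun j _ => ?_
    rw [pow_add]; ring
  simp_rw [h1]
  rw [integral_finsetSum]
  · refine Finset.sum_congr rfl fun i _ => ?_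
    rw [integral_finsetSum]
    · refine Finset.sum_congr rfl fun j _ => ?_
      rw [integral_const_mul, integral_const_mul]
    · exact fun j _ => ((sym_pow_int τ _).const_mul _).const_mul _
  · exact fun i _ => integrable_finsetSum _ fun j _ => ((sym_pow_int τ _).const_mul _).const_mul _

theorem IsRep.Lp_inner [IsFiniteMeasure τ] [IsFiniteMeasure ρ] (hU : IsRep U) (hv : IsSp U v ρ)
    (hw : IsSp U w τ) {c : ℝ} (hc : ∀ᵐ ξ ∂ρ, sym ξ = c) (p : Polynomial ℝ) :
    ⟪v, Pj U p w⟫ = p.eval c * ⟪v, w⟫ := by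
  rw [Pj, inner_sum, Polynomial.eval_eq_sum, Polynomial.sum_def, Finset.sum_mul]
  refine Finset.sum_congr rfl fun j _ => ?_
  rw [real_inner_smul_right, ← hU.Lj_symm hv hw, hU.Lj_eig hv hc, real_inner_smul_left]
  ring

/-- **vectors with singular spectral measures are orthogonal** (radial case) -/
theorem IsRep.orth [IsFiniteMeasure τ] [IsFiniteMeasure ρ] (hU : IsRep U) (hv : IsSp U v ρ)
    (hw : IsSp U w τ) {c : ℝ} (hc0 : 0 < c) (hc1 : c ≤ 1) (hc : ∀ᵐ ξ ∂ρ, sym ξ = c)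
    (hτ : τ {ξ | sym ξ = c} = 0) : ⟪v, w⟫ = 0 := by
  set Q : Polynomial ℝ := 1 - (Polynomial.X - Polynomial.C c) ^ 2 with hQ
  have hQe : ∀ s, Q.eval s = 1 - (s - c) ^ 2 := by
    intro s; simp [hQ]
  have key : ∀ n : ℕ, ⟪v, w⟫ ^ 2 ≤ ‖v‖ ^ 2 * ∫ ξ, ((Q ^ n).eval (sym ξ)) ^ 2 ∂τ := by
    intro n
    have h1 := hU.Lp_inner hv hw hc (Q ^ n)
    have h2 : (Q ^ n).eval c = 1 := by
      rw [Polynomial.eval_pow, hQe]; simp
    rw [h2, one_mul] at h1
    rw [← h1, ← hU.Lp_norm hw, ← mul_pow]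
    have h3 := abs_real_inner_le_norm v (Pj U (Q ^ n) w)
    rw [← sq_abs ⟪v, _⟫]
    exact pow_le_pow_left₀ (abs_nonneg _) h3 2
  have lim : Tendsto (fun n : ℕ => ‖v‖ ^ 2 * ∫ ξ, ((Q ^ n).eval (sym ξ)) ^ 2 ∂τ) atTop
      (𝓝 (‖v‖ ^ 2 * 0)) := by
    refine Tendsto.const_mul _ ?_
    have h4 : (0 : ℝ) = ∫ _, (0 : ℝ) ∂τ := by simp
    rw [h4]
    refine tendsto_integral_of_dominated_convergence (fun _ => 1) (fun n => ?_)
      (integrable_const _) (fun n => ?_) ?_
    · exact (((Q ^ n).continuous.comp sym_cont).pow 2).aestronglyMeasurable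
    · refine Eventually.of_forall fun ξ => ?_
      rw [Polynomial.eval_pow, hQe]
      have a1 := sym_pos ξ
      have a2 := sym_le ξ
      have a3 : 0 ≤ 1 - (sym ξ - c) ^ 2 := by nlinarith
      have a4 : 1 - (sym ξ - c) ^ 2 ≤ 1 := by nlinarith [sq_nonneg (sym ξ - c)]
      rw [Real.norm_eq_abs, abs_of_nonneg (by positivity)]
      exact pow_le_one₀ (pow_nonneg a3 _) (pow_le_one₀ a3 a4)
    · have h5 : ∀ᵐ ξ ∂τ, sym ξ ≠ c := by
        rw [ae_iff]
        simpa using hτ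
      filter_upwards [h5] with ξ hξ
      have a1 := sym_pos ξ
      have a2 := sym_le ξ
      have a3 : 0 ≤ 1 - (sym ξ - c) ^ 2 := by nlinarith
      have a5 : 0 < (sym ξ - c) ^ 2 := by
        have := sub_ne_zero.2 hξ
        positivity
      have h6 : ∀ n : ℕ, ((Q ^ n).eval (sym ξ)) ^ 2 = ((1 - (sym ξ - c) ^ 2) ^ 2) ^ n := by
        intro n
        rw [Polynomial.eval_pow, hQe, ← pow_mul, ← pow_mul, mul_comm]
      simp_rw [h6]
      exact tendsto_pow_atTop_nhds_zero_of_lt_one (by positivity) (by nlinarith)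
  rw [mul_zero] at lim
  have := ge_of_tendsto' lim key
  have h7 : ⟪v, w⟫ ^ 2 = 0 := le_antisymm this (sq_nonneg _)
  exact pow_eq_zero_iff (two_ne_zero) |>.1 h7

end hilbert

end

end Pool.Agent.Helper19.BW
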