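import Pool.Agent.Helper19.BW.Conv

/-!
# Functions of independent systems: test functions and splitting
-/

set_option autoImplicit false
set_option linter.unusedSectionVars false
open MeasureTheory Filter Topology ProbabilityTheory
open scoped RealInnerProductSpace

namespace Pool.Agent.Helper19.BW

noncomputable section

section basic

variable {X : Type*}

/-- the centred indicator function -/
def cen (p : ℝ) (A : Set X) (ω : X) : ℝ := A.indicator (fun _ => (1 : ℝ)) ω - p

theorem cen_meas {𝒜 : MeasurableSpace X} {A : Set X} (p : ℝ) (hA : MeasurableSet A) :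
    Measurable (cen p A) := by
  unfold cen
  exact (measurable_const.indicator hA).sub_const _

variable [mX : MeasurableSpace X] {P : Measure X} [IsProbabilityMeasure P]

theorem cen_abs (A : Set X) (ω : X) : |cen (P.real A) A ω| ≤ 1 := by
  unfold cen
  have h1 : 0 ≤ P.real A := measureReal_nonneg
  have h2 : P.real A ≤ 1 := measureReal_le_one
  by_cases h : ω ∈ A
  · rw [Set.indicator_of_mem h, abs_le]; constructor <;> linarith
  · rw [Set.indicator_of_notMem h, abs_le]; constructor <;> linarith

theorem cen_int {A : Set X} (hA : MeasurableSet A) :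
    ∫ ω, cen (P.real A) A ω ∂P = 0 := by
  unfold cen
  rw [integral_sub ((integrable_const (1 : ℝ)).indicator hA) (integrable_const _),
    integral_indicator_const _ hA]
  simp

theorem cen_corr {A : Set X} (hA : MeasurableSet A) {T : X → X}
    (hT : MeasurePreserving T P P) :
    ∫ ω, cen (P.real A) A (T ω) * cen (P.real A) A ω ∂P =
      P.real (A ∩ T ⁻¹' A) - P.real A ^ 2 := by
  have hTA : MeasurableSet (T ⁻¹' A) := hT.measurable hA
  set p := P.real A with hp
  have h1 : ∀ ω, cen p A (T ω) * cen p A ω =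
      (A ∩ T ⁻¹' A).indicator (fun _ => (1 : ℝ)) ω -
        p * (T ⁻¹' A).indicator (fun _ => (1 : ℝ)) ω -
        p * A.indicator (fun _ => (1 : ℝ)) ω + p ^ 2 := by
    intro ω
    unfold cen
    by_cases h1 : ω ∈ A <;> by_cases h2 : T ω ∈ A <;>
      simp [Set.indicator, h1, h2] <;> ring
  have i1 := (integrable_const (1 : ℝ)).indicator (μ := P) (hA.inter hTA)
  have i2 := (integrable_const (1 : ℝ)).indicator (μ := P) hTA
  have i3 := (integrable_const (1 : ℝ)).indicator (μ := P) hA
  have h2 : P.real (T ⁻¹' A) = p := by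
    rw [hp]
    unfold Measure.real
    rw [hT.measure_preimage hA.nullMeasurableSet]
  rw [integral_congr_ae (Eventually.of_forall h1), integral_add
    (f := fun ω => (A ∩ T ⁻¹' A).indicator (fun _ => (1 : ℝ)) ω -
        p * (T ⁻¹' A).indicator (fun _ => (1 : ℝ)) ω -
        p * A.indicator (fun _ => (1 : ℝ)) ω) (g := fun _ => p ^ 2)
    ((i1.sub (i2.const_mul _)).sub (i3.const_mul _)) (integrable_const _),
    integral_sub (f := fun ω => (A ∩ T ⁻¹' A).indicator (fun _ => (1 : ℝ)) ω -
        p * (T ⁻¹' A).indicator (fun _ => (1 : ℝ)) ω)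
      (g := fun ω => p * A.indicator (fun _ => (1 : ℝ)) ω)
      (i1.sub (i2.const_mul _)) (i3.const_mul _),
    integral_sub (f := fun ω => (A ∩ T ⁻¹' A).indicator (fun _ => (1 : ℝ)) ω)
      (g := fun ω => p * (T ⁻¹' A).indicator (fun _ => (1 : ℝ)) ω) i1 (i2.const_mul _),
    integral_const_mul, integral_const_mul, integral_indicator_const _ (hA.inter hTA),
    integral_indicator_const _ hTA, integral_indicator_const _ hA, h2]
  simp
  ring

end basic

section indep

variable {X : Type*} [mX : MeasurableSpace X] {P : Measure X} [IsProbabilityMeasure P]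
  {ι : Type*} [Fintype ι] [DecidableEq ι] {𝒜 : ι → MeasurableSpace X}

theorem indep_fun (h : iIndep 𝒜 P) {E : ι → Type*} [mE : ∀ i, MeasurableSpace (E i)]
    {f : ∀ i, X → E i} (hf : ∀ i, Measurable[𝒜 i] (f i)) : iIndepFun f P :=
  iIndep_of_iIndep_of_le h fun i => (hf i).comap_le

theorem prod_int (h : iIndep 𝒜 P) (hle : ∀ i, 𝒜 i ≤ mX) {f : ι → X → ℝ}
    (hf : ∀ i, Measurable[𝒜 i] (f i)) : ∫ ω, ∏ i, f i ω ∂P = ∏ i, ∫ ω, f i ω ∂P :=
  (indep_fun h hf).integral_fun_prod_eq_prod_integral fun i =>
    ((hf i).mono (hle i) le_rfl).aestronglyMeasurable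

theorem prod_int_on (h : iIndep 𝒜 P) (hle : ∀ i, 𝒜 i ≤ mX) (S : Finset ι) {f : ι → X → ℝ}
    (hf : ∀ i, Measurable[𝒜 i] (f i)) : ∫ ω, ∏ i ∈ S, f i ω ∂P = ∏ i ∈ S, ∫ ω, f i ω ∂P := by
  have h1 := prod_int h hle (f := fun i => if i ∈ S then f i else fun _ => 1) (fun i => by
    by_cases hi : i ∈ S
    · simp only [hi, if_true]; exact hf i
    · simp only [hi, if_false]; exact @measurable_const _ _ _ (𝒜 i) _)
  have h2 : ∀ ω, ∏ i, (if i ∈ S then f i else fun _ => 1) ω = ∏ i ∈ S, f i ω := by
    intro ω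
    rw [← Finset.prod_subset (Finset.subset_univ S) (fun i _ hi => by simp [hi])]
    exact Finset.prod_congr rfl fun i hi => by simp [hi]
  have h3 : ∏ i, ∫ ω, (if i ∈ S then f i else fun _ => 1) ω ∂P = ∏ i ∈ S, ∫ ω, f i ω ∂P := by
    rw [← Finset.prod_subset (Finset.subset_univ S) (fun i _ hi => by simp [hi])]
    exact Finset.prod_congr rfl fun i hi => by simp [hi]
  simp_rw [h2] at h1
  rw [h1, h3]

/-- the test functions -/
def tst (P : Measure X) (A : ι → Set X) (S : Finset ι) (ω : X) : ℝ :=
  ∏ i ∈ S, cen (P.real (A i)) (A i) ω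

theorem tst_abs (A : ι → Set X) (S : Finset ι) (ω : X) : |tst P A S ω| ≤ 1 := by
  unfold tst
  rw [Finset.abs_prod]
  exact Finset.prod_le_one (fun i _ => abs_nonneg _) fun i _ => cen_abs _ _

theorem tst_meas {A : ι → Set X} (hA : ∀ i, MeasurableSet (A i)) (S : Finset ι) :
    Measurable (tst P A S) := by
  unfold tst
  exact Finset.measurable_prod _ fun i _ => cen_meas _ (hA i)

theorem tst_corr (h : iIndep 𝒜 P) (hle : ∀ i, 𝒜 i ≤ mX) {A : ι → Set X}
    (hA : ∀ i, MeasurableSet[𝒜 i] (A i)) (S : Finset ι) {T : X → X}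
    (hT : MeasurePreserving T P P) (hTm : ∀ i, Measurable[𝒜 i, 𝒜 i] T) :
    ∫ ω, tst P A S (T ω) * tst P A S ω ∂P =
      ∏ i ∈ S, (P.real (A i ∩ T ⁻¹' A i) - P.real (A i) ^ 2) := by
  unfold tst
  simp_rw [← Finset.prod_mul_distrib]
  rw [prod_int_on h hle S (f := fun i ω => cen (P.real (A i)) (A i) (T ω) *
    cen (P.real (A i)) (A i) ω)]
  · exact Finset.prod_congr rfl fun i _ => cen_corr (hle i _ (hA i)) hT
  · intro i
    exact ((cen_meas _ (hA i)).comp (hTm i)).mul (cen_meas _ (hA i))

/-- convolutions of continuous measures -/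
theorem tau_ex (S : Finset ι) (σ : ι → Measure ℂ) (hf : ∀ i, IsFiniteMeasure (σ i))
    (ha : ∀ i z, σ i {z} = 0) :
    ∃ τ : Measure ℂ, IsFiniteMeasure τ ∧ (∀ x, charFun τ x = ∏ i ∈ S, charFun (σ i) x) ∧
      (S.Nonempty → ∀ z, τ {z} = 0) ∧ (S.card ≠ 1 → τ {ξ | ‖ξ‖ = 1} = 0) := by
  induction S using Finset.induction_on with
  | empty =>
    refine ⟨Measure.dirac 0, inferInstance, fun x => by simp, fun h => absurd h (by simp),
      fun _ => ?_⟩
    rw [Measure.dirac_apply' _ (measurableSet_eq_fun measurable_norm measurable_const)]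
    simp
  | insert a S ha' ih =>
    obtain ⟨τ, h1, h2, h3, h4⟩ := ih
    have := hf a
    refine ⟨σ a ∗ τ, inferInstance, fun x => ?_, fun _ => conv_atom _ _ (ha a), fun hc => ?_⟩
    · rw [charFun_conv, h2, Finset.prod_insert ha']
    · refine conv_circle _ _ (ha a) (h3 ?_)
      rw [Finset.nonempty_iff_ne_empty]
      rintro rfl
      simp at hc

/-- the integrals of conditional expectations against test functions -/
theorem condExp_tst (h : iIndep 𝒜 P) (hle : ∀ i, 𝒜 i ≤ mX) {F : X → ℝ}
    {A : ι → Set X} (hA : ∀ i, MeasurableSet[𝒜 i] (A i)) (S : Finset ι) (j : ι)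
    (hS : ∃ i ∈ S, i ≠ j) : ∫ ω, (P[F | 𝒜 j]) ω * tst P A S ω ∂P = 0 := by
  obtain ⟨i, hi, hij⟩ := hS
  have h1 : ∀ ω, (P[F | 𝒜 j]) ω * tst P A S ω =
      ∏ l, (if l = j then (P[F | 𝒜 j]) ω else 1) *
        (if l ∈ S then cen (P.real (A l)) (A l) ω else 1) := by
    intro ω
    rw [Finset.prod_mul_distrib, Finset.prod_ite_eq' Finset.univ j]
    simp only [Finset.mem_univ, if_true]
    congr 1
    unfold tst
    rw [← Finset.prod_subset (Finset.subset_univ S) (fun i _ hi => by simp [hi])]
    exact Finset.prod_congr rfl fun i hi => by simp [hi]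
  simp_rw [h1]
  rw [prod_int h hle (f := fun l ω => (if l = j then (P[F | 𝒜 j]) ω else 1) *
        (if l ∈ S then cen (P.real (A l)) (A l) ω else 1))]
  · refine Finset.prod_eq_zero (Finset.mem_univ i) ?_
    simp only [hij, hi, if_true, if_false, one_mul]
    exact cen_int (hle i _ (hA i))
  · intro l
    have m1 : Measurable[𝒜 l] (fun ω => if l = j then (P[F | 𝒜 j]) ω else 1) := by
      by_cases hl : l = j
      · subst hl
        simp only [if_true]
        exact stronglyMeasurable_condExp.measurable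
      · simp only [hl, if_false]
        exact measurable_const
    have m2 : Measurable[𝒜 l] (fun ω => if l ∈ S then cen (P.real (A l)) (A l) ω else 1) := by
      by_cases hl : l ∈ S
      · simp only [hl, if_true]
        exact cen_meas _ (hA l)
      · simp only [hl, if_false]
        exact measurable_const
    exact m1.mul m2

theorem condExp_cen (hle : ∀ i, 𝒜 i ≤ mX) {F : X → ℝ} (hF : Integrable F P) {j : ι} {A : Set X}
    (hA : MeasurableSet[𝒜 j] A) (p : ℝ) :
    ∫ ω, (P[F | 𝒜 j]) ω * cen p A ω ∂P = ∫ ω, F ω * cen p A ω ∂P := by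
  have e : ∀ G : X → ℝ, Integrable G P →
      ∫ ω, G ω * cen p A ω ∂P = ∫ ω in A, G ω ∂P - p * ∫ ω, G ω ∂P := by
    intro G hG
    have hA' := hle j _ hA
    have h1 : ∀ ω, G ω * cen p A ω = A.indicator G ω - p * G ω := by
      intro ω
      unfold cen
      by_cases h : ω ∈ A <;> simp [Set.indicator, h] <;> ring
    simp_rw [h1]
    rw [integral_sub (hG.indicator hA') (hG.const_mul _), integral_indicator hA',
      integral_const_mul]
  rw [e _ integrable_condExp, e _ hF, setIntegral_condExp (hle j) hF hA, integral_condExp (hle j)]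

/-- a function which is orthogonal to all test functions vanishes -/
theorem zero_of_orth (hle : ∀ i, 𝒜 i ≤ mX) {D : X → ℝ} (hDi : Integrable D P)
    (hDm : AEStronglyMeasurable[⨆ i, 𝒜 i] D P)
    (h1 : ∀ A : ι → Set X, (∀ i, MeasurableSet[𝒜 i] (A i)) → ∀ S : Finset ι,
      ∫ ω, D ω * tst P A S ω ∂P = 0) : D =ᵐ[P] fun _ => 0 := by
  have hsup : (⨆ i, 𝒜 i) ≤ mX := iSup_le hle
  have hmul : ∀ (A : ι → Set X), (∀ i, MeasurableSet[𝒜 i] (A i)) → ∀ (S : Finset ι) (G : X → ℝ),
      Integrable G P → Integrable (fun ω => G ω * tst P A S ω) P := by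
    intro A hA S G hG
    refine hG.mul_bdd (c := 1) (tst_meas (fun i => hle i _ (hA i)) S).aestronglyMeasurable
      (Eventually.of_forall fun ω => ?_)
    rw [Real.norm_eq_abs]
    exact tst_abs A S ω
  -- orthogonality to products of sets
  have h2 : ∀ A : ι → Set X, (∀ i, MeasurableSet[𝒜 i] (A i)) → ∫ ω in ⋂ i, A i, D ω ∂P = 0 := by
    intro A hA
    have hAi : MeasurableSet (⋂ i, A i) := MeasurableSet.iInter fun i => hle i _ (hA i)
    have e1 : ∀ ω, (⋂ i, A i).indicator D ω =
        ∑ S ∈ (Finset.univ : Finset ι).powerset,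
          (∏ i ∈ Finset.univ \ S, P.real (A i)) * (D ω * tst P A S ω) := by
      intro ω
      have e2 : ∏ i, (cen (P.real (A i)) (A i) ω + P.real (A i)) =
          (⋂ i, A i).indicator (fun _ => (1 : ℝ)) ω := by
        unfold cen
        simp only [sub_add_cancel]
        by_cases hω : ω ∈ ⋂ i, A i
        · rw [Set.indicator_of_mem hω]
          refine Finset.prod_eq_one fun i _ => ?_
          rw [Set.indicator_of_mem (Set.mem_iInter.1 hω i)]
        · rw [Set.indicator_of_notMem hω]
          rw [Set.mem_iInter] at hω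
          push Not at hω
          obtain ⟨i, hi⟩ := hω
          exact Finset.prod_eq_zero (Finset.mem_univ i) (Set.indicator_of_notMem hi _)
      rw [Finset.prod_add] at e2
      have e3 : (⋂ i, A i).indicator D ω = D ω * (⋂ i, A i).indicator (fun _ => (1 : ℝ)) ω := by
        by_cases hω : ω ∈ ⋂ i, A i
        · rw [Set.indicator_of_mem hω, Set.indicator_of_mem hω, mul_one]
        · rw [Set.indicator_of_notMem hω, Set.indicator_of_notMem hω, mul_zero]
      rw [e3, ← e2, Finset.mul_sum]
      refine Finset.sum_congr rfl fun S _ => ?_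
      unfold tst
      ring
    rw [← integral_indicator hAi]
    simp_rw [e1]
    rw [integral_finsetSum _ fun S _ => (hmul A hA S D hDi).const_mul _]
    refine Finset.sum_eq_zero fun S _ => ?_
    rw [integral_const_mul, h1 A hA S, mul_zero]
  -- all sets of the generated σ-algebra
  have h3 : ∀ s, MeasurableSet[⨆ i, 𝒜 i] s → ∫ ω in s, D ω ∂P = 0 := by
    have hgen : (⨆ i, 𝒜 i) = MeasurableSpace.generateFrom
        (piiUnionInter (fun n => {s | MeasurableSet[𝒜 n] s}) Set.univ) := by
      have := generateFrom_piiUnionInter_measurableSet 𝒜 Set.univ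
      rw [this]
      simp
    have hpi : IsPiSystem (piiUnionInter (fun n => {s | MeasurableSet[𝒜 n] s}) Set.univ) :=
      isPiSystem_piiUnionInter _ (fun n => @MeasurableSpace.isPiSystem_measurableSet _ (𝒜 n)) _
    have h0 : ∫ ω, D ω ∂P = 0 := by
      have := h2 (fun _ => Set.univ) fun i => MeasurableSet.univ
      simpa using this
    refine MeasurableSpace.induction_on_inter (C := fun s _ => ∫ ω in s, D ω ∂P = 0) hgen hpi
      (by simp) ?_ ?_ ?_
    · rintro s ⟨t, _, f, hf, rfl⟩
      have e : (⋂ x ∈ t, f x) = ⋂ x, (if x ∈ t then f x else Set.univ) := by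
        ext ω
        simp only [Set.mem_iInter]
        constructor
        · intro h i
          by_cases hi : i ∈ t
          · simp only [hi, if_true]; exact h i hi
          · simp [hi]
        · intro h i hi
          have := h i
          simpa only [hi, if_true] using this
      rw [e]
      refine h2 _ fun i => ?_
      by_cases hi : i ∈ t
      · simp only [hi, if_true]; exact hf i hi
      · simp only [hi, if_false]; exact MeasurableSet.univ
    · intro s hs ih
      have hs' : MeasurableSet s := hsup s hs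
      have := integral_add_compl hs' hDi
      rw [ih, h0, zero_add] at this
      exact this
    · intro f hd hf ih
      rw [integral_iUnion (fun i => hsup _ (hf i)) hd hDi.integrableOn]
      simp [ih]
  refine ae_eq_of_forall_setIntegral_eq_of_sigmaFinite' hsup (fun s _ _ => hDi.integrableOn)
    (fun s _ _ => integrableOn_const (measure_ne_top _ _)) (fun s hs _ => ?_) hDm
    aestronglyMeasurable_const
  rw [h3 s hs]; simp

/-- **Splitting.** -/
theorem split (h : iIndep 𝒜 P) (hle : ∀ i, 𝒜 i ≤ mX) {F : X → ℝ} (hF : Integrable F P)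
    (hFm : AEStronglyMeasurable[⨆ i, 𝒜 i] F P)
    (ho : ∀ A : ι → Set X, (∀ i, MeasurableSet[𝒜 i] (A i)) → ∀ S : Finset ι, S.card ≠ 1 →
      ∫ ω, F ω * tst P A S ω ∂P = 0) :
    F =ᵐ[P] fun ω => ∑ i, (P[F | 𝒜 i]) ω := by
  have hsup : (⨆ i, 𝒜 i) ≤ mX := iSup_le hle
  set D : X → ℝ := fun ω => F ω - ∑ i, (P[F | 𝒜 i]) ω with hD
  have hsumI : Integrable (fun ω => ∑ i, (P[F | 𝒜 i]) ω) P :=
    integrable_finsetSum _ fun i _ => integrable_condExp
  have hDi : Integrable D P := hF.sub hsumI
  have hmul : ∀ (A : ι → Set X), (∀ i, MeasurableSet[𝒜 i] (A i)) → ∀ (S : Finset ι) (G : X → ℝ),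
      Integrable G P → Integrable (fun ω => G ω * tst P A S ω) P := by
    intro A hA S G hG
    refine hG.mul_bdd (c := 1) (tst_meas (fun i => hle i _ (hA i)) S).aestronglyMeasurable
      (Eventually.of_forall fun ω => ?_)
    rw [Real.norm_eq_abs]
    exact tst_abs A S ω
  -- orthogonality to the test functions
  have h1 : ∀ A : ι → Set X, (∀ i, MeasurableSet[𝒜 i] (A i)) → ∀ S : Finset ι,
      ∫ ω, D ω * tst P A S ω ∂P = 0 := by
    intro A hA S
    have e1 : ∫ ω, D ω * tst P A S ω ∂P = ∫ ω, F ω * tst P A S ω ∂P -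
        ∑ j, ∫ ω, (P[F | 𝒜 j]) ω * tst P A S ω ∂P := by
      simp_rw [hD, sub_mul, Finset.sum_mul]
      rw [integral_sub (hmul A hA S F hF) (integrable_finsetSum _ fun i _ =>
        hmul A hA S _ integrable_condExp), integral_finsetSum _ fun i _ =>
        hmul A hA S _ integrable_condExp]
    rw [e1]
    by_cases hc : S.card = 1
    · obtain ⟨k, rfl⟩ := Finset.card_eq_one.1 hc
      rw [Finset.sum_eq_single k]
      · unfold tst
        simp only [Finset.prod_singleton]
        rw [condExp_cen hle hF (hA k), sub_self]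
      · intro j _ hj
        exact condExp_tst h hle hA {k} j ⟨k, by simp, fun h => hj h.symm⟩
      · simp
    · rw [ho A hA S hc, zero_sub, neg_eq_zero]
      refine Finset.sum_eq_zero fun j _ => ?_
      by_cases hS : S = ∅
      · subst hS
        have h0 := ho A hA ∅ (by simp)
        unfold tst at h0 ⊢
        simp only [Finset.prod_empty, mul_one] at h0 ⊢
        rw [integral_condExp (hle j), h0]
      · refine condExp_tst h hle hA S j ?_
        by_contra hcon
        push Not at hcon
        have : S ⊆ {j} := fun i hi => by rw [Finset.mem_singleton]; exact hcon i hi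
        rcases Finset.subset_singleton_iff.1 this with h | h
        · exact hS h
        · exact hc (by rw [h]; simp)
  have hDm : AEStronglyMeasurable[⨆ i, 𝒜 i] D P := by
    refine hFm.sub ?_
    have h5 : StronglyMeasurable[⨆ i, 𝒜 i] (fun ω => ∑ i, (P[F | 𝒜 i]) ω) :=
      Finset.stronglyMeasurable_fun_sum _ fun i _ =>
        stronglyMeasurable_condExp.mono (le_iSup 𝒜 i)
    exact h5.aestronglyMeasurable
  have h4 : D =ᵐ[P] fun _ => 0 := zero_of_orth hle hDi hDm h1
  filter_upwards [h4] with ω hω
  have : F ω - ∑ i, (P[F | 𝒜 i]) ω = 0 := hω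
  linarith

end indep

end

end Pool.Agent.Helper19.BW
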