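import Pool.Agent.Helper19.BW.Def
import Pool.Agent.Helper19.BW.Atom
import Pool.Graph.R_pool_sql_team_seeded_63374d34.N661.BR.Every
import Pool.Graph.R_pool_sql_team_seeded_63374d34.N878.BRBOCH
import Pool.Graph.R_pool_sql_team_seeded_63374d34.N141.BRERG4

/-!
# Waves which are functions of independent weakly mixing systems
-/

set_option autoImplicit false
set_option linter.unusedSectionVars false
open MeasureTheory Filter Topology ProbabilityTheory

namespace Pool.Agent.Helper19.BW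

open Pool.Agent.N661.BR (MW shift IsStationary IsErgodic lin IsGaussianLaw J0 IsRandomWave cov
  parallel Four meas_eval meas_shift meas_lin)

noncomputable section

section src

variable {X : Type} [mX : MeasurableSpace X] {P : Measure X} {T : ℂ → X → X} {n : ℕ}
  {𝒜 : Fin n → MeasurableSpace X}

theorem tst_mem [IsProbabilityMeasure P] (hS : IsSources P T 𝒜) {A : Fin n → Set X}
    (hA : ∀ i, MeasurableSet[𝒜 i] (A i)) (S : Finset (Fin n)) : MemLp (tst P A S) 2 P :=
  MemLp.of_bound (tst_meas (fun i => hS.le i _ (hA i)) S).aestronglyMeasurable 1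
    (Eventually.of_forall fun ω => by rw [Real.norm_eq_abs]; exact tst_abs A S ω)

/-- the spectral measures of the test functions -/
theorem tst_spec [IsProbabilityMeasure P] (hS : IsSources P T 𝒜) {A : Fin n → Set X}
    (hA : ∀ i, MeasurableSet[𝒜 i] (A i)) (S : Finset (Fin n)) :
    ∃ τ : Measure ℂ, IsFiniteMeasure τ ∧ IsSpF P T (tst P A S) τ ∧
      (S.Nonempty → ∀ z, τ {z} = 0) ∧ (S.card ≠ 1 → τ {ξ | ‖ξ‖ = 1} = 0) := by
  choose σ h1 h2 h3 using fun i => hS.mixing i (A i) (hA i)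
  obtain ⟨τ, k1, k2, k3, k4⟩ := tau_ex S σ h1 h2
  refine ⟨τ, k1, fun x => ?_, k3, k4⟩
  rw [tst_corr hS.indep hS.le hA S (hS.pres x) (fun i => hS.inv i x), k2]
  push_cast
  refine Finset.prod_congr rfl fun i _ => ?_
  rw [← h3 i x]
  push_cast
  rfl

/-- the sources are jointly ergodic -/
theorem src_erg [IsProbabilityMeasure P] (hS : IsSources P T 𝒜) {B : Set X}
    (hB : MeasurableSet[⨆ i, 𝒜 i] B) (hinv : ∀ x, T x ⁻¹' B =ᵐ[P] B) : P B = 0 ∨ P B = 1 := by
  have hsup : (⨆ i, 𝒜 i) ≤ mX := iSup_le hS.le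
  have hB' : MeasurableSet B := hsup _ hB
  set f : X → ℝ := cen (P.real B) B with hf
  have hfm : Measurable[⨆ i, 𝒜 i] f := cen_meas _ hB
  have hf2 : MemLp f 2 P := MemLp.of_bound (hfm.mono hsup le_rfl).aestronglyMeasurable 1
    (Eventually.of_forall fun ω => by rw [Real.norm_eq_abs]; exact cen_abs B ω)
  have hfT : ∀ x, ∀ᵐ ω ∂P, f (T x ω) = f ω := by
    intro x
    have h1 := indicator_ae_eq_of_ae_eq_set (f := fun _ => (1 : ℝ)) (hinv x)
    filter_upwards [h1] with ω hω
    rw [hf]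
    unfold cen
    have h2 : (T x ⁻¹' B).indicator (fun _ => (1 : ℝ)) ω = B.indicator (fun _ => (1 : ℝ)) (T x ω) :=
      rfl
    rw [← h2, hω]
  set ρ : Measure ℂ := ENNReal.ofReal (∫ ω, f ω * f ω ∂P) • Measure.dirac 0 with hρ
  have : IsFiniteMeasure ρ := by
    rw [hρ]
    exact Measure.smul_finite _ ENNReal.ofReal_ne_top
  have hsp : IsSpF P T f ρ := by
    intro x
    have h1 : ∫ ω, f (T x ω) * f ω ∂P = ∫ ω, f ω * f ω ∂P :=
      integral_congr_ae ((hfT x).mono fun ω hω => by simp only [hω])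
    rw [h1, charFun_apply, hρ, integral_smul_measure, integral_dirac,
      ENNReal.toReal_ofReal (integral_nonneg fun ω => mul_self_nonneg _)]
    simp
  have horth : ∀ A : Fin n → Set X, (∀ i, MeasurableSet[𝒜 i] (A i)) → ∀ S : Finset (Fin n),
      ∫ ω, f ω * tst P A S ω ∂P = 0 := by
    intro A hA S
    rcases S.eq_empty_or_nonempty with h | h
    · subst h
      unfold tst
      simp only [Finset.prod_empty, mul_one]
      exact cen_int hB'
    · obtain ⟨τ, k1, k2, k3, _⟩ := tst_spec hS hA S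
      refine orthF hS.pres hS.zero hS.add hf2 (tst_mem hS hA S) hsp k2 one_pos le_rfl ?_ ?_
      · have h0 : MeasurableSet {ξ : ℂ | sym ξ ≠ 1} :=
          (measurableSet_eq_fun sym_cont.measurable measurable_const).compl
        rw [ae_iff, hρ, Measure.smul_apply, Measure.dirac_apply' _ h0]
        have : (0 : ℂ) ∉ {ξ : ℂ | sym ξ ≠ 1} := by
          simp [sym_eq_one]
        rw [Set.indicator_of_notMem this, smul_zero]
      · have h1 : {ξ : ℂ | sym ξ = 1} = {0} := by
          ext ξ; simp [sym_eq_one]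
        rw [h1]
        exact k3 h 0
  have hz := zero_of_orth hS.le (hf2.integrable one_le_two)
    hfm.stronglyMeasurable.aestronglyMeasurable horth
  have h5 : ∀ᵐ ω ∂P, B.indicator (fun _ => (1 : ℝ)) ω = P.real B := by
    filter_upwards [hz] with ω hω
    have : B.indicator (fun _ => (1 : ℝ)) ω - P.real B = 0 := hω
    linarith
  have h6 : P.real B * P.real B = P.real B := by
    have h7 : ∫ ω, B.indicator (fun _ => (1 : ℝ)) ω * B.indicator (fun _ => (1 : ℝ)) ω ∂P =
        P.real B * P.real B := by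
      rw [integral_congr_ae (h5.mono fun ω hω => by
        show B.indicator (fun _ => (1 : ℝ)) ω * B.indicator (fun _ => (1 : ℝ)) ω =
          P.real B * P.real B
        rw [hω])]
      simp
    rw [← h7]
    have h8 : ∀ ω, B.indicator (fun _ => (1 : ℝ)) ω * B.indicator (fun _ => (1 : ℝ)) ω =
        B.indicator (fun _ => (1 : ℝ)) ω := by
      intro ω
      by_cases h : ω ∈ B <;> simp [Set.indicator, h]
    simp_rw [h8]
    rw [integral_indicator_const _ hB']
    simp
  have h9 : P.real B = 0 ∨ P.real B = 1 := by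
    rcases eq_or_ne (P.real B) 0 with h | h
    · exact Or.inl h
    · exact Or.inr (mul_right_cancel₀ h (by rw [h6, one_mul]))
  rcases h9 with h | h
  · left
    exact (measureReal_eq_zero_iff).1 h
  · right
    rw [← ofReal_measureReal (μ := P) (s := B), h, ENNReal.ofReal_one]

end src

section circ

/-- the spectral measure of a wave -/
theorem circ_spec {m : ℝ} (hm : 0 ≤ m) (ν : Measure ℝ) [IsProbabilityMeasure ν] :
    ∃ ρ : Measure ℂ, IsFiniteMeasure ρ ∧ (∀ᵐ ξ ∂ρ, sym ξ = Real.exp (-1 / 2)) ∧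
      (∀ x, charFun ρ x = ((m * cov ν x : ℝ) : ℂ)) ∧
      ∀ θ : ℂ, 0 < m → ρ {θ} = 0 → ν {α | Real.cos α = θ.re ∧ Real.sin α = θ.im} = 0 := by
  set e : ℝ → ℂ := fun α => ⟨Real.cos α, Real.sin α⟩ with he
  have hem : Measurable e := by
    have : e = fun α => (Real.cos α : ℂ) + (Real.sin α : ℂ) * Complex.I := by
      funext α
      exact Complex.mk_eq_add_mul_I _ _
    rw [this]
    fun_prop
  have hen : Measurable (fun α => -e α) := hem.neg
  have hnorm : ∀ α, ‖e α‖ = 1 := by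
    intro α
    rw [Complex.norm_def, Complex.normSq_apply]
    simp only [he]
    rw [show Real.cos α * Real.cos α + Real.sin α * Real.sin α = 1 by
      nlinarith [Real.cos_sq_add_sin_sq α], Real.sqrt_one]
  set ρ : Measure ℂ := ENNReal.ofReal (m / 2) • (ν.map e + ν.map (fun α => -e α)) with hρ
  have i1 : IsProbabilityMeasure (ν.map e) := Measure.isProbabilityMeasure_map hem.aemeasurable
  have i2 : IsProbabilityMeasure (ν.map (fun α => -e α)) :=
    Measure.isProbabilityMeasure_map hen.aemeasurable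
  have hfin : IsFiniteMeasure ρ := by
    rw [hρ]
    exact Measure.smul_finite _ ENNReal.ofReal_ne_top
  refine ⟨ρ, hfin, ?_, fun x => ?_, fun θ hm0 hθ => ?_⟩
  · have h0 : MeasurableSet {ξ : ℂ | ¬ sym ξ = Real.exp (-1 / 2)} :=
      (measurableSet_eq_fun sym_cont.measurable measurable_const).compl
    rw [ae_iff, hρ, Measure.smul_apply, Measure.add_apply, Measure.map_apply hem h0,
      Measure.map_apply hen h0]
    have e1 : e ⁻¹' {ξ : ℂ | ¬ sym ξ = Real.exp (-1 / 2)} = ∅ := by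
      ext α; simp [sym_eq_circle, hnorm]
    have e2 : (fun α => -e α) ⁻¹' {ξ : ℂ | ¬ sym ξ = Real.exp (-1 / 2)} = ∅ := by
      ext α; simp [sym_eq_circle, hnorm]
    rw [e1, e2]
    simp
  · rw [charFun_apply, hρ, integral_smul_measure, integral_add_measure, integral_map hem.aemeasurable
      (by fun_prop), integral_map hen.aemeasurable (by fun_prop), ← integral_add]
    · have e3 : ∀ α, Complex.exp (((inner ℝ (e α) x : ℝ) : ℂ) * Complex.I) +
          Complex.exp (((inner ℝ (-e α) x : ℝ) : ℂ) * Complex.I) =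
          ((2 * Real.cos (x.re * Real.cos α + x.im * Real.sin α) : ℝ) : ℂ) := by
        intro α
        have e4 : inner ℝ (e α) x = x.re * Real.cos α + x.im * Real.sin α := by
          rw [Complex.inner]
          simp [he]
        rw [inner_neg_left, e4]
        generalize x.re * Real.cos α + x.im * Real.sin α = r
        rw [Complex.ofReal_neg, Complex.ofReal_mul, Complex.ofReal_cos, Complex.ofReal_ofNat,
          Complex.two_cos]
      simp_rw [e3]
      rw [integral_complex_ofReal, integral_const_mul, ENNReal.toReal_ofReal (by positivity)]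
      unfold cov
      rw [Complex.real_smul, ← Complex.ofReal_mul]
      congr 1
      ring
    · refine (integrable_const (1 : ℝ)).mono' (by fun_prop) (Eventually.of_forall fun α => ?_)
      rw [Complex.norm_exp_ofReal_mul_I]
    · refine (integrable_const (1 : ℝ)).mono' (by fun_prop) (Eventually.of_forall fun α => ?_)
      rw [Complex.norm_exp_ofReal_mul_I]
    · refine (integrable_const (1 : ℝ)).mono' (by fun_prop) (Eventually.of_forall fun α => ?_)
      rw [Complex.norm_exp_ofReal_mul_I]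
    · refine (integrable_const (1 : ℝ)).mono' (by fun_prop) (Eventually.of_forall fun α => ?_)
      rw [Complex.norm_exp_ofReal_mul_I]

  · rw [hρ, Measure.smul_apply, Measure.add_apply, Measure.map_apply hem (measurableSet_singleton _),
      smul_eq_mul, mul_eq_zero] at hθ
    rcases hθ with h | h
    · exact absurd (ENNReal.ofReal_eq_zero.1 h) (by linarith)
    · refine measure_mono_null ?_ (add_eq_zero.1 h).1
      intro α hα
      show e α = θ
      exact Complex.ext hα.1 hα.2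

end circ

section wave

variable {X : Type} [mX : MeasurableSpace X] {P : Measure X} {T : ℂ → X → X} {n : ℕ}
  {𝒜 : Fin n → MeasurableSpace X} {Φ : X → MW}

theorem phi_meas (hS : IsSources P T 𝒜) (hΦ : Measurable[⨆ i, 𝒜 i] Φ) : Measurable Φ :=
  hΦ.mono (iSup_le hS.le) le_rfl

theorem phi_stat (hS : IsSources P T 𝒜) (hΦ : Measurable[⨆ i, 𝒜 i] Φ)
    (hE : ∀ x : ℂ, ∀ᵐ ω ∂P, Φ (T x ω) = shift x (Φ ω)) : IsStationary (P.map Φ) := by
  intro x
  have hm := phi_meas hS hΦ
  rw [Measure.map_map (meas_shift x) hm]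
  have h1 : (shift x ∘ Φ) =ᵐ[P] Φ ∘ T x := by
    filter_upwards [hE x] with ω hω
    exact hω.symm
  rw [Measure.map_congr h1, ← Measure.map_map hm (hS.pres x).measurable, (hS.pres x).map_eq]

theorem phi_erg (hS : IsSources P T 𝒜) (hΦ : Measurable[⨆ i, 𝒜 i] Φ)
    (hE : ∀ x : ℂ, ∀ᵐ ω ∂P, Φ (T x ω) = shift x (Φ ω)) : IsErgodic (P.map Φ) := by
  intro A hA hinv
  have := hS.prob
  have hm := phi_meas hS hΦ
  rw [Measure.map_apply hm hA]
  refine src_erg hS (hΦ hA) fun x => ?_
  have h1 : Φ ⁻¹' (shift x ⁻¹' A) =ᵐ[P] Φ ⁻¹' A :=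
    (hm.quasiMeasurePreserving P).preimage_ae_eq (hinv x)
  refine EventuallyEq.trans ?_ h1
  filter_upwards [hE x] with ω hω
  show (Φ (T x ω) ∈ A) = (shift x (Φ ω) ∈ A)
  rw [hω]

/-- the value of the wave at `w` -/
def val (Φ : X → MW) (w : ℂ) (ω : X) : ℝ := Φ ω w

theorem val_meas (hS : IsSources P T 𝒜) (hΦ : Measurable[⨆ i, 𝒜 i] Φ) (w : ℂ) :
    Measurable (val Φ w) := (meas_eval w).comp (phi_meas hS hΦ)

theorem val_shift (hE : ∀ x : ℂ, ∀ᵐ ω ∂P, Φ (T x ω) = shift x (Φ ω)) (w x : ℂ) :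
    ∀ᵐ ω ∂P, val Φ w (T x ω) = val Φ (w + x) ω := by
  filter_upwards [hE x] with ω hω
  unfold val
  rw [hω]
  rfl

theorem val_mem (hS : IsSources P T 𝒜) (hΦ : Measurable[⨆ i, 𝒜 i] Φ)
    (hE : ∀ x : ℂ, ∀ᵐ ω ∂P, Φ (T x ω) = shift x (Φ ω))
    (h2 : Integrable (fun f : MW => f 0 ^ 2) (P.map Φ)) (w : ℂ) : MemLp (val Φ w) 2 P := by
  rw [memLp_two_iff_integrable_sq (val_meas hS hΦ w).aestronglyMeasurable]
  have h3 := Pool.Agent.N661.BR.sq_int (phi_stat hS hΦ hE) h2 w
  exact (integrable_map_measure ((meas_eval w).pow_const 2).aestronglyMeasurable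
    (phi_meas hS hΦ).aemeasurable).1 h3

theorem val_spec (hS : IsSources P T 𝒜) (hΦ : Measurable[⨆ i, 𝒜 i] Φ)
    (hE : ∀ x : ℂ, ∀ᵐ ω ∂P, Φ (T x ω) = shift x (Φ ω))
    (h2 : Integrable (fun f : MW => f 0 ^ 2) (P.map Φ)) :
    ∃ ρ : Measure ℂ, IsFiniteMeasure ρ ∧ (∀ᵐ ξ ∂ρ, sym ξ = Real.exp (-1 / 2)) ∧
      ∀ w, IsSpF P T (val Φ w) ρ := by
  have := hS.prob
  have hm := phi_meas hS hΦ
  have hp : IsProbabilityMeasure (P.map Φ) := Measure.isProbabilityMeasure_map hm.aemeasurable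
  obtain ⟨m, ν, hν, hm0, hcov⟩ :=
    Pool.Agent.N878.BR.BOCH (P.map Φ) hp (phi_stat hS hΦ hE) h2
  obtain ⟨ρ, k1, k2, k3, -⟩ := circ_spec hm0 ν
  refine ⟨ρ, k1, k2, fun w x => ?_⟩
  rw [k3 x]
  congr 1
  have h3 := hcov (w + x) w
  rw [integral_map (f := fun f : MW => f (w + x) * f w) hm.aemeasurable
    ((meas_eval _).mul (meas_eval _)).aestronglyMeasurable] at h3
  rw [add_sub_cancel_left] at h3
  rw [← h3]
  refine integral_congr_ae ?_
  filter_upwards [val_shift hE w x] with ω hω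
  rw [hω]
  rfl

/-- the wave is orthogonal to all products of at least two sources, and to the constants -/
theorem val_orth (hS : IsSources P T 𝒜) (hΦ : Measurable[⨆ i, 𝒜 i] Φ)
    (hE : ∀ x : ℂ, ∀ᵐ ω ∂P, Φ (T x ω) = shift x (Φ ω))
    (h2 : Integrable (fun f : MW => f 0 ^ 2) (P.map Φ)) (w : ℂ) (A : Fin n → Set X)
    (hA : ∀ i, MeasurableSet[𝒜 i] (A i)) (S : Finset (Fin n)) (hc : S.card ≠ 1) :
    ∫ ω, val Φ w ω * tst P A S ω ∂P = 0 := by
  have := hS.prob
  obtain ⟨ρ, k1, k2, k3⟩ := val_spec hS hΦ hE h2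
  obtain ⟨τ, l1, l2, _, l4⟩ := tst_spec hS hA S
  refine orthF hS.pres hS.zero hS.add (val_mem hS hΦ hE h2 w) (tst_mem hS hA S) (k3 w) l2
    (Real.exp_pos (-1 / 2)) ?_ k2 ?_
  · rw [Real.exp_le_one_iff]; norm_num
  · have h1 : {ξ : ℂ | sym ξ = Real.exp (-1 / 2)} = {ξ | ‖ξ‖ = 1} := by
      ext ξ; simp only [Set.mem_ofPred_eq, sym_eq_circle]
    rw [h1]
    exact l4 hc

/-- the test functions span a dense subspace -/
theorem dense_tst [IsProbabilityMeasure P] (hS : IsSources P T 𝒜) {F : X → ℝ} (hF : MemLp F 2 P)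
    (hFm : StronglyMeasurable[⨆ i, 𝒜 i] F) :
    hF.toLp F ∈ (Submodule.span ℝ {u : Lp ℝ 2 P | ∃ (A : Fin n → Set X)
      (hA : ∀ i, MeasurableSet[𝒜 i] (A i)) (S : Finset (Fin n)),
      u = (tst_mem hS hA S).toLp (tst P A S)}).topologicalClosure := by
  have hsup : (⨆ i, 𝒜 i) ≤ mX := iSup_le hS.le
  rw [← Submodule.orthogonal_orthogonal_eq_closure, Submodule.mem_orthogonal]
  intro u hu
  rw [Submodule.mem_orthogonal] at hu
  have hu2 : MemLp u 2 P := Lp.memLp u
  have hui : Integrable u P := hu2.integrable one_le_two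
  have inn : ∀ {f : X → ℝ} (hf : MemLp f 2 P), inner ℝ (hf.toLp f) u = ∫ ω, f ω * u ω ∂P := by
    intro f hf
    rw [L2.inner_def]
    refine integral_congr_ae ?_
    filter_upwards [hf.coeFn_toLp] with ω h1
    rw [h1]
    simp [mul_comm]
  have ce : ∀ {f : X → ℝ}, MemLp f 2 P → StronglyMeasurable[⨆ i, 𝒜 i] f →
      ∫ ω, (P[u | ⨆ i, 𝒜 i]) ω * f ω ∂P = ∫ ω, u ω * f ω ∂P := by
    intro f hf hfm
    have h1 : Integrable ((u : X → ℝ) * f) P := hu2.integrable_mul hf
    have h2 := condExp_mul_of_stronglyMeasurable_right hfm h1 hui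
    rw [← integral_condExp hsup (f := fun ω => u ω * f ω)]
    exact integral_congr_ae h2.symm
  have hD : P[u | ⨆ i, 𝒜 i] =ᵐ[P] fun _ => 0 := by
    refine zero_of_orth hS.le integrable_condExp
      stronglyMeasurable_condExp.aestronglyMeasurable fun A hA S => ?_
    have hm : Measurable[⨆ i, 𝒜 i] (tst P A S) := by
      unfold tst
      exact Finset.measurable_fun_prod _ fun i _ => cen_meas _ (le_iSup 𝒜 i _ (hA i))
    rw [ce (tst_mem hS hA S) hm.stronglyMeasurable]
    have h3 := hu _ (Submodule.subset_span ⟨A, hA, S, rfl⟩)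
    rw [inn (tst_mem hS hA S)] at h3
    rw [← h3]
    exact integral_congr_ae (Eventually.of_forall fun ω => mul_comm _ _)
  rw [real_inner_comm, inn hF]
  have h4 : ∫ ω, F ω * u ω ∂P = ∫ ω, u ω * F ω ∂P :=
    integral_congr_ae (Eventually.of_forall fun ω => mul_comm _ _)
  rw [h4, ← ce hF hFm]
  rw [integral_congr_ae (hD.mono fun ω hω => by
    show (P[u | ⨆ i, 𝒜 i]) ω * F ω = 0
    rw [hω, zero_mul])]
  simp

/-- the wave contains no plane waves -/
theorem par_zero (hS : IsSources P T 𝒜) (hΦ : Measurable[⨆ i, 𝒜 i] Φ)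
    (hE : ∀ x : ℂ, ∀ᵐ ω ∂P, Φ (T x ω) = shift x (Φ ω))
    (h2 : Integrable (fun f : MW => f 0 ^ 2) (P.map Φ)) {m : ℝ} {ν : Measure ℝ}
    (hν : IsProbabilityMeasure ν) (hm : 0 < m)
    (hcov : ∀ w w' : ℂ, ∫ f : MW, f w * f w' ∂(P.map Φ) = m * cov ν (w - w')) :
    parallel ν = 0 := by
  have := hS.prob
  have hmΦ := phi_meas hS hΦ
  obtain ⟨ρ, k1, k2, k3, k4⟩ := circ_spec hm.le ν
  have hv := val_mem hS hΦ hE h2 0
  have hsp : IsSpF P T (val Φ 0) ρ := by
    intro x
    rw [k3 x]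
    congr 1
    have h3 := hcov (0 + x) 0
    rw [integral_map (f := fun f : MW => f (0 + x) * f 0) hmΦ.aemeasurable
      ((meas_eval _).mul (meas_eval _)).aestronglyMeasurable, zero_add, sub_zero] at h3
    rw [← h3]
    refine integral_congr_ae ?_
    filter_upwards [val_shift hE 0 x] with ω hω
    rw [hω, zero_add]
    rfl
  have hatom : ∀ θ : ℂ, ‖θ‖ = 1 → ρ {θ} = 0 := by
    intro θ hθ
    have hθ0 : θ ≠ 0 := by
      rintro rfl
      simp at hθ
    refine no_atom (UU_rep hS.pres hS.zero hS.add) (hsp.toLp hS.pres hv) θ _ ?_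
      (dense_tst hS hv ?_)
    · rintro _ ⟨A, hA, S, rfl⟩
      rcases S.eq_empty_or_nonempty with h | h
      · subst h
        refine ⟨Measure.dirac 0, inferInstance, IsSpF.toLp hS.pres _ ?_, ?_, ?_⟩
        · intro x
          unfold tst
          simp
        · rw [Measure.dirac_apply' _ (measurableSet_singleton _)]
          simp [hθ0.symm]
        · rw [Measure.dirac_apply' _ (measurableSet_singleton _)]
          simp [hθ0]
      · obtain ⟨τ, l1, l2, l3, _⟩ := tst_spec hS hA S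
        exact ⟨τ, l1, l2.toLp hS.pres _, l3 h θ, l3 h (-θ)⟩
    · have : Measurable[⨆ i, 𝒜 i] (val Φ 0) := (meas_eval 0).comp hΦ
      exact this.stronglyMeasurable
  unfold parallel Measure.real
  have hms : MeasurableSet {p : ℝ × ℝ | Real.sin (p.1 - p.2) = 0} :=
    measurableSet_eq_fun (by fun_prop) measurable_const
  rw [Measure.prod_apply hms]
  have hz : ∀ α : ℝ, ν (Prod.mk α ⁻¹' {p : ℝ × ℝ | Real.sin (p.1 - p.2) = 0}) = 0 := by
    intro α
    have h1 := k4 ⟨Real.cos α, Real.sin α⟩ hm (hatom _ (by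
      rw [Complex.norm_def, Complex.normSq_apply]
      simp only
      rw [show Real.cos α * Real.cos α + Real.sin α * Real.sin α = 1 by
        nlinarith [Real.cos_sq_add_sin_sq α], Real.sqrt_one]))
    have h3 := k4 ⟨-Real.cos α, -Real.sin α⟩ hm (hatom _ (by
      rw [Complex.norm_def, Complex.normSq_apply]
      simp only
      rw [show -Real.cos α * -Real.cos α + -Real.sin α * -Real.sin α = 1 by
        nlinarith [Real.cos_sq_add_sin_sq α], Real.sqrt_one]))
    refine measure_mono_null ?_ (measure_union_null h1 h3)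
    intro β hβ
    have hβ' : Real.sin (α - β) = 0 := hβ
    have hc : Real.cos (α - β) ^ 2 = 1 := by
      have := Real.cos_sq_add_sin_sq (α - β)
      rw [hβ'] at this
      linarith
    have e1 : Real.cos β = Real.cos α * Real.cos (α - β) := by
      have : Real.cos β = Real.cos (α - (α - β)) := by congr 1; ring
      rw [this, Real.cos_sub, hβ', mul_zero, add_zero]
    have e2 : Real.sin β = Real.sin α * Real.cos (α - β) := by
      have : Real.sin β = Real.sin (α - (α - β)) := by congr 1; ring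
      rw [this, Real.sin_sub, hβ', mul_zero, sub_zero]
    rcases sq_eq_one_iff.1 hc with h | h
    · left
      exact ⟨by rw [e1, h, mul_one], by rw [e2, h, mul_one]⟩
    · right
      exact ⟨by rw [e1, h]; ring, by rw [e2, h]; ring⟩
  rw [lintegral_congr hz, lintegral_zero, ENNReal.toReal_zero]

/-- conditional expectations commute with the action -/
theorem condExp_comp (hS : IsSources P T 𝒜) (i : Fin n) (x : ℂ) {F : X → ℝ}
    (hF : Integrable F P) :
    P[fun ω => F (T x ω) | 𝒜 i] =ᵐ[P] fun ω => (P[F | 𝒜 i]) (T x ω) := by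
  have := hS.prob
  have hTx := hS.pres x
  have hFx : Integrable (fun ω => F (T x ω)) P := hTx.integrable_comp_of_integrable hF
  have hG : Integrable (P[F | 𝒜 i]) P := integrable_condExp
  have hGx : Integrable (fun ω => (P[F | 𝒜 i]) (T x ω)) P := hTx.integrable_comp_of_integrable hG
  have key : ∀ (G : X → ℝ), Integrable G P → ∀ B, MeasurableSet B →
      ∫ ω in T x ⁻¹' B, G (T x ω) ∂P = ∫ ω in B, G ω ∂P := by
    intro G hG B hB
    rw [← integral_indicator (hTx.measurable hB), ← integral_indicator hB]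
    have h1 : ∀ ω, (T x ⁻¹' B).indicator (fun ω => G (T x ω)) ω = (B.indicator G) (T x ω) :=
      fun ω => rfl
    simp_rw [h1]
    have h2 := integral_map (μ := P) (φ := T x) hTx.measurable.aemeasurable
      (f := B.indicator G) (by rw [hTx.map_eq]; exact (hG.indicator hB).aestronglyMeasurable)
    rw [hTx.map_eq] at h2
    exact h2.symm
  refine (ae_eq_condExp_of_forall_setIntegral_eq (hS.le i) hFx (fun s _ _ => hGx.integrableOn)
    (fun A hA _ => ?_) ?_).symm
  · set B : Set X := T (-x) ⁻¹' A with hB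
    have hBm : MeasurableSet[𝒜 i] B := hS.inv i (-x) hA
    have hAB : A = T x ⁻¹' B := by
      ext ω
      simp only [hB, Set.mem_preimage]
      rw [← hS.add, neg_add_cancel, hS.zero]
    rw [hAB, key _ hG B (hS.le i _ hBm), key _ hF B (hS.le i _ hBm),
      setIntegral_condExp (hS.le i) hF hBm]
  · exact (stronglyMeasurable_condExp.comp_measurable (hS.inv i x)).aestronglyMeasurable

/-- the influence of a source on a linear combination of values -/
theorem lin_infl (hS : IsSources P T 𝒜) (hΦ : Measurable[⨆ i, 𝒜 i] Φ)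
    (hE : ∀ x : ℂ, ∀ᵐ ω ∂P, Φ (T x ω) = shift x (Φ ω))
    (h2 : Integrable (fun f : MW => f 0 ^ 2) (P.map Φ)) {δ : ℝ} (i : Fin n)
    (hδ : ∫ ω, (P[fun ω' => Φ ω' 0 | 𝒜 i]) ω ^ 2 ∂P ≤ δ) {k : ℕ} (w : Fin k → ℂ)
    (t : Fin k → ℝ) :
    ∫ ω, (P[fun ω' => lin w t (Φ ω') | 𝒜 i]) ω ^ 2 ∂P ≤ (∑ j, t j ^ 2) * (k * δ) := by
  have := hS.prob
  have hv : ∀ z, MemLp (val Φ z) 2 P := val_mem hS hΦ hE h2
  have hc : ∀ z, MemLp (P[val Φ z | 𝒜 i]) 2 P := fun z => (hv z).condExp one_le_two
  have h1 : ∀ z, ∫ ω, (P[val Φ z | 𝒜 i]) ω ^ 2 ∂P ≤ δ := by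
    intro z
    refine le_trans (le_of_eq ?_) hδ
    have e1 : P[val Φ z | 𝒜 i] =ᵐ[P] fun ω => (P[val Φ 0 | 𝒜 i]) (T z ω) := by
      refine EventuallyEq.trans ?_ (condExp_comp hS i z ((hv 0).integrable one_le_two))
      refine condExp_congr_ae ?_
      filter_upwards [val_shift hE 0 z] with ω hω
      rw [hω, zero_add]
    rw [integral_congr_ae (e1.mono fun ω hω => by
      show (P[val Φ z | 𝒜 i]) ω ^ 2 = (fun ω => (P[val Φ 0 | 𝒜 i]) ω ^ 2) (T z ω)
      rw [hω])]
    have e2 := integral_map (μ := P) (φ := T z) (hS.pres z).measurable.aemeasurable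
      (f := fun ω => (P[val Φ 0 | 𝒜 i]) ω ^ 2)
      (by rw [(hS.pres z).map_eq]; exact (hc 0).aestronglyMeasurable.pow 2)
    rw [(hS.pres z).map_eq] at e2
    rw [← e2]
    rfl
  have e3 : P[fun ω' => lin w t (Φ ω') | 𝒜 i] =ᵐ[P]
      fun ω => ∑ j, t j * (P[val Φ (w j) | 𝒜 i]) ω := by
    have e4 : (fun ω' => lin w t (Φ ω')) = ∑ j, (t j • val Φ (w j)) := by
      funext ω
      rw [Finset.sum_apply]
      rfl
    rw [e4]
    refine (condExp_finsetSum (fun j _ => (((hv (w j)).integrable one_le_two).smul (t j)))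
      _).trans ?_
    have e5 : ∀ j, P[t j • val Φ (w j) | 𝒜 i] =ᵐ[P] t j • P[val Φ (w j) | 𝒜 i] :=
      fun j => condExp_smul _ _ _
    filter_upwards [ae_all_iff.2 e5] with ω hω
    rw [Finset.sum_apply]
    refine Finset.sum_congr rfl fun j _ => ?_
    rw [hω j]
    rfl
  have i3 : ∀ j, Integrable (fun ω => (P[val Φ (w j) | 𝒜 i]) ω ^ 2) P := fun j =>
    (memLp_two_iff_integrable_sq (hc (w j)).aestronglyMeasurable).1 (hc (w j))
  calc ∫ ω, (P[fun ω' => lin w t (Φ ω') | 𝒜 i]) ω ^ 2 ∂P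
      = ∫ ω, (∑ j, t j * (P[val Φ (w j) | 𝒜 i]) ω) ^ 2 ∂P :=
        integral_congr_ae (e3.mono fun ω hω => by simp only [hω])
    _ ≤ ∫ ω, (∑ j, t j ^ 2) * ∑ j, (P[val Φ (w j) | 𝒜 i]) ω ^ 2 ∂P := by
        refine integral_mono_of_nonneg (Eventually.of_forall fun ω => sq_nonneg _) ?_
          (Eventually.of_forall fun ω => Finset.sum_mul_sq_le_sq_mul_sq _ _ _)
        exact (integrable_finsetSum _ fun j _ => i3 j).const_mul _
    _ = (∑ j, t j ^ 2) * ∑ j, ∫ ω, (P[val Φ (w j) | 𝒜 i]) ω ^ 2 ∂P := by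
        rw [integral_const_mul, integral_finsetSum _ fun j _ => i3 j]
    _ ≤ (∑ j, t j ^ 2) * ∑ j : Fin k, δ := by
        refine mul_le_mul_of_nonneg_left (Finset.sum_le_sum fun j _ => h1 (w j)) ?_
        exact Finset.sum_nonneg fun j _ => sq_nonneg _
    _ = (∑ j, t j ^ 2) * (k * δ) := by simp

/-- the wave is the sum of its conditional expectations given the sources -/
theorem lin_split (hS : IsSources P T 𝒜) (hΦ : Measurable[⨆ i, 𝒜 i] Φ)
    (hE : ∀ x : ℂ, ∀ᵐ ω ∂P, Φ (T x ω) = shift x (Φ ω))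
    (h2 : Integrable (fun f : MW => f 0 ^ 2) (P.map Φ)) {k : ℕ} (w : Fin k → ℂ)
    (t : Fin k → ℝ) :
    ∫ ω, lin w t (Φ ω) ∂P = 0 ∧
    (fun ω => lin w t (Φ ω)) =ᵐ[P] fun ω => ∑ i, (P[fun ω' => lin w t (Φ ω') | 𝒜 i]) ω := by
  have := hS.prob
  have hv : ∀ z, MemLp (val Φ z) 2 P := val_mem hS hΦ hE h2
  have hlin : ∀ ω, lin w t (Φ ω) = ∑ j, t j * val Φ (w j) ω := fun ω => rfl
  have hI : Integrable (fun ω => lin w t (Φ ω)) P := by
    simp_rw [hlin]
    exact integrable_finsetSum _ fun j _ => ((hv (w j)).integrable one_le_two).const_mul _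
  have ho : ∀ A : Fin n → Set X, (∀ i, MeasurableSet[𝒜 i] (A i)) → ∀ S : Finset (Fin n),
      S.card ≠ 1 → ∫ ω, lin w t (Φ ω) * tst P A S ω ∂P = 0 := by
    intro A hA S hc
    simp_rw [hlin, Finset.sum_mul, mul_assoc]
    rw [integral_finsetSum]
    · refine Finset.sum_eq_zero fun j _ => ?_
      rw [integral_const_mul, val_orth hS hΦ hE h2 (w j) A hA S hc, mul_zero]
    · intro j _
      refine Integrable.const_mul ?_ _
      exact (hv (w j)).integrable_mul (tst_mem hS hA S)
  refine ⟨?_, ?_⟩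
  · have h0 := ho (fun _ => Set.univ) (fun i => MeasurableSet.univ) ∅ (by simp)
    unfold tst at h0
    simpa using h0
  · refine split hS.indep hS.le hI ?_ ho
    have : Measurable[⨆ i, 𝒜 i] (fun ω => lin w t (Φ ω)) := (meas_lin w t).comp hΦ
    exact this.stronglyMeasurable.aestronglyMeasurable

end wave

end

end Pool.Agent.Helper19.BW
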